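import Pool.Agent.H547.V1.Stm

set_option autoImplicit false
set_option linter.unusedSectionVars false

/-!
# The ratio of the main factors modulo `p⁴`
-/

namespace Pool.Agent.H547.V1

open Finset Pool.Agent.R439.PL

variable {p : ℕ} [hp : Fact p.Prime]

theorem ujn {j : ℕ} (hj : ¬ p ∣ j) : U p (j : ℚ) := by
  have : ¬ (p : ℤ) ∣ (j : ℤ) := fun h => hj (by exact_mod_cast h)
  exact_mod_cast U_int this

theorem x_I {a j : ℕ} (hj : ¬ p ∣ j) : I p a (((p ^ a : ℕ) : ℚ) / j) :=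
  ⟨(j : ℚ)⁻¹, (ujn hj).2.2, by push_cast; ring⟩

theorem U1 {x c : ℚ} (hx : I p 1 x) (hc : c ∈ Zp p) : U p (1 + c * x) := by
  have h : EQ p 1 1 (1 + c * x) := ⟨one_mem _, add_mem (one_mem _) (mul_mem hc hx.mem), by
    have : 1 - (1 + c * x) = -(c * x) := by ring
    rw [this]; exact (hx.mulL hc).neg⟩
  exact h.unit one_pos U.one

theorem xf_0 {N j : ℕ} (h : j % 3 = 0) : xf N j = 1 + 2 * ((N : ℚ) / j) ^ 2 / (1 + 3 * ((N : ℚ) / j)) := by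
  unfold xf
  rw [if_pos h]
  have : (1 + 3 * ((N : ℚ) / j)) ≠ 0 := by positivity
  have hi := inv_mul_cancel₀ this
  rw [div_eq_mul_inv, div_eq_mul_inv _ (1 + 3 * ((N : ℚ) / j))]
  linear_combination hi

theorem xf_1 {N j : ℕ} (h : ¬ j % 3 = 0) (h' : (j + N) % 3 = 0) :
    xf N j = 1 + 2 * ((N : ℚ) / j) ^ 2 / ((1 + 1 * ((N : ℚ) / j)) * (1 + 4 * ((N : ℚ) / j))) := by
  unfold xf
  rw [if_neg h, if_pos h']
  have h1 : ((1 + ((N : ℚ) / j)) * (1 + 4 * ((N : ℚ) / j))) ≠ 0 := by positivity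
  have hi := inv_mul_cancel₀ h1
  rw [one_mul, div_eq_mul_inv, div_eq_mul_inv _ ((1 + ((N : ℚ) / j)) * (1 + 4 * ((N : ℚ) / j)))]
  linear_combination hi

theorem xf_2 {N j : ℕ} (h : ¬ j % 3 = 0) (h' : ¬ (j + N) % 3 = 0) :
    xf N j = 1 - ((N : ℚ) / j) ^ 2 / (1 + 2 * ((N : ℚ) / j)) ^ 2 := by
  unfold xf
  rw [if_neg h, if_neg h']
  have : (1 + 2 * ((N : ℚ) / j)) ^ 2 ≠ 0 := by positivity
  have hi := inv_mul_cancel₀ this
  rw [div_eq_mul_inv, div_eq_mul_inv _ ((1 + 2 * ((N : ℚ) / j)) ^ 2)]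
  linear_combination hi

theorem prod_one4 {ι : Type*} {s : Finset ι} {f : ι → ℚ} (h : ∀ j ∈ s, I p 4 (f j - 1)) : I p 4 (∏ j ∈ s, f j - 1) := by
  have : EQ p 4 (∏ j ∈ s, f j) (∏ _j ∈ s, (1 : ℚ)) := EQ.prod fun j hj => ⟨by
    have := add_mem (h j hj).mem (one_mem (Zp p))
    rwa [sub_add_cancel] at this, one_mem _, h j hj⟩
  rw [prod_const_one] at this
  exact this.2.2

/-- the ratio for `a ≥ 2` -/
theorem ratio_ge2 {a : ℕ} (ha : 2 ≤ a) : I p 4 (∏ j ∈ (range (p ^ a)).filter (fun j => ¬ p ∣ j), xf (p ^ a) j - 1) := by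
  refine prod_one4 fun j hj => ?_
  rw [mem_filter] at hj
  have hx : I p a (((p ^ a : ℕ) : ℚ) / j) := x_I hj.2
  have hx1 := hx.mono (show 1 ≤ a by omega)
  have hx2 := hx.mono ha
  have hx4 : I p 4 ((((p ^ a : ℕ) : ℚ) / j) ^ 2) := by rw [sq]; exact hx2.mul hx2
  by_cases h0 : j % 3 = 0
  · rw [xf_0 h0]
    have e : 1 + 2 * (((p ^ a : ℕ) : ℚ) / j) ^ 2 / (1 + 3 * (((p ^ a : ℕ) : ℚ) / j)) - 1 =
      (((p ^ a : ℕ) : ℚ) / j) ^ 2 * (2 * (1 + 3 * (((p ^ a : ℕ) : ℚ) / j))⁻¹) := by ring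
    rw [e]
    exact hx4.mulR (mul_mem (nm 2) (U1 hx1 (nm 3)).2.2)
  · by_cases h1 : (j + p ^ a) % 3 = 0
    · rw [xf_1 h0 h1]
      have e : 1 + 2 * (((p ^ a : ℕ) : ℚ) / j) ^ 2 / ((1 + 1 * (((p ^ a : ℕ) : ℚ) / j)) * (1 + 4 * (((p ^ a : ℕ) : ℚ) / j))) - 1 =
        (((p ^ a : ℕ) : ℚ) / j) ^ 2 * (2 * ((1 + 1 * (((p ^ a : ℕ) : ℚ) / j)) * (1 + 4 * (((p ^ a : ℕ) : ℚ) / j)))⁻¹) := by ring
      rw [e]
      exact hx4.mulR (mul_mem (nm 2) ((U1 hx1 (one_mem _)).mul (U1 hx1 (nm 4))).2.2)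
    · rw [xf_2 h0 h1]
      have e : 1 - (((p ^ a : ℕ) : ℚ) / j) ^ 2 / (1 + 2 * (((p ^ a : ℕ) : ℚ) / j)) ^ 2 - 1 =
        (((p ^ a : ℕ) : ℚ) / j) ^ 2 * (-((1 + 2 * (((p ^ a : ℕ) : ℚ) / j)) ^ 2)⁻¹) := by ring
      rw [e]
      exact hx4.mulR (neg_mem ((U1 hx1 (nm 2)).pow 2).2.2)

theorem prod_exp1 {ι : Type*} {s : Finset ι} {f y : ι → ℚ} (h : ∀ j ∈ s, EQ p 4 (f j) (1 + y j)) (hy : ∀ j ∈ s, I p 2 (y j)) :
    EQ p 4 (∏ j ∈ s, f j) (1 + ∑ j ∈ s, y j) := by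
  classical
  induction s using Finset.induction_on with
  | empty => simpa using EQ.refl (one_mem (Zp p))
  | insert a s ha ih =>
    have ih := ih (fun i hi => h i (mem_insert_of_mem hi)) fun i hi => hy i (mem_insert_of_mem hi)
    rw [prod_insert ha, sum_insert ha]
    have hS : I p 2 (∑ i ∈ s, y i) := I.sum fun i hi => hy i (mem_insert_of_mem hi)
    have ha' := hy a (mem_insert_self _ _)
    refine ((h a (mem_insert_self _ _)).mul ih).trans ⟨mul_mem (add_mem (one_mem _) ha'.mem) (add_mem (one_mem _) hS.mem),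
      add_mem (one_mem _) (add_mem ha'.mem hS.mem), ?_⟩
    have : (1 + y a) * (1 + ∑ i ∈ s, y i) - (1 + (y a + ∑ i ∈ s, y i)) = y a * ∑ i ∈ s, y i := by ring
    rw [this]
    exact ha'.mul hS

/-- the classes -/
def cl (p c : ℕ) : Finset ℕ := (range p).filter (fun j => ¬ p ∣ j ∧ (j + c * p) % 3 = 0)

theorem cl_mem {c j : ℕ} : j ∈ cl p c ↔ 0 < j ∧ j < p ∧ (j + c * p) % 3 = 0 := by
  unfold cl
  rw [mem_filter, mem_range]
  constructor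
  · rintro ⟨h1, h2, h3⟩
    refine ⟨Nat.pos_of_ne_zero fun h => h2 (h ▸ dvd_zero _), h1, h3⟩
  · rintro ⟨h1, h2, h3⟩
    exact ⟨h2, fun h => absurd (Nat.le_of_dvd h1 h) (by omega), h3⟩

theorem xj {j : ℕ} (h0 : 0 < j) (hj : j < p) : I p 1 ((p : ℚ) / j) := by
  have := x_I (p := p) (a := 1) (j := j) (fun h => absurd (Nat.le_of_dvd h0 h) (by omega))
  simpa using this

/-- reflection of the powers -/
theorem x_refl {j : ℕ} (h0 : 0 < j) (hj : j < p) :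
    I p 4 (((p : ℚ) / ((p - j : ℕ) : ℚ)) ^ 2 - (((p : ℚ) / j) ^ 2 + 2 * ((p : ℚ) / j) ^ 3)) ∧
    I p 4 (((p : ℚ) / ((p - j : ℕ) : ℚ)) ^ 3 + ((p : ℚ) / j) ^ 3) := by
  have hx := xj h0 hj
  have hj0 : (j : ℚ) ≠ 0 := by positivity
  have hpj : ((p - j : ℕ) : ℚ) ≠ 0 := by
    have : 0 < p - j := by omega
    positivity
  have hu : U p (1 + (-1) * ((p : ℚ) / j)) := U1 hx (neg_mem (one_mem _))
  have e : (p : ℚ) / ((p - j : ℕ) : ℚ) = -((p : ℚ) / j) * (1 + (-1) * ((p : ℚ) / j))⁻¹ := by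
    have h1 : (1 + (-1) * ((p : ℚ) / j)) = -((p - j : ℕ) : ℚ) / j := by
      rw [Nat.cast_sub hj.le]; field_simp; ring
    rw [h1, inv_div]
    field_simp
  rw [e]
  have hu0 := hu.1
  have hi := hu.2.2
  have hx4 : I p 4 (((p : ℚ) / j) ^ 4) := by
    have := (hx.mul hx).mul (hx.mul hx)
    rwa [show (p : ℚ) / j * ((p : ℚ) / j) * ((p : ℚ) / j * ((p : ℚ) / j)) = ((p : ℚ) / j) ^ 4 by ring] at this
  have hm := hx.mem
  generalize (p : ℚ) / j = x at *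
  obtain ⟨i, hi0⟩ : ∃ i, i = (1 + (-1) * x)⁻¹ := ⟨_, rfl⟩
  have hi1 : i * (1 - x) = 1 := by
    rw [hi0]
    have : (1 - x) = (1 + (-1) * x) := by ring
    rw [this]; exact inv_mul_cancel₀ hu0
  rw [← hi0] at hi ⊢
  constructor
  · -- x² i² - x² - 2x³ = x⁴ (3 - 2x) i²
    have e2 : (-x * i) ^ 2 - (x ^ 2 + 2 * x ^ 3) = x ^ 4 * ((3 - 2 * x) * i ^ 2) := by
      linear_combination (x ^ 2 + 2 * x ^ 3) * (i * (1 - x) + 1) * hi1
    rw [e2]
    exact hx4.mulR (mul_mem (sub_mem (nm 3) (mul_mem (nm 2) hm)) (pow_mem hi 2))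
  · -- -x³ i³ + x³ = x⁴ (-3 + 3x - x²) i³
    have e2 : (-x * i) ^ 3 + x ^ 3 = x ^ 4 * ((-3 + 3 * x - x ^ 2) * i ^ 3) := by
      linear_combination -(x ^ 3) * ((i * (1 - x)) ^ 2 + i * (1 - x) + 1) * hi1
    rw [e2]
    exact hx4.mulR (mul_mem (sub_mem (add_mem (neg_mem (nm 3)) (mul_mem (nm 3) hm)) (pow_mem hm 2)) (pow_mem hi 3))

theorem cl_refl {c c' : ℕ} (hc : (c + c') % 3 = 2) (f : ℕ → ℚ) : ∑ j ∈ cl p c, f j = ∑ j ∈ cl p c', f (p - j) := by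
  have key : ∀ {c c' : ℕ}, (c + c') % 3 = 2 → ∀ j ∈ cl p c, p - j ∈ cl p c' := by
    intro c c' hc j hj
    rw [cl_mem] at hj ⊢
    refine ⟨by omega, by omega, ?_⟩
    have h1 : (p - j + c' * p) + (j + c * p) = (1 + (c + c')) * p := by
      have : p - j + j = p := by omega
      nlinarith
    have h2 : ((1 + (c + c')) * p) % 3 = 0 := by
      rw [Nat.mul_mod]; rw [show (1 + (c + c')) % 3 = 0 by omega]; simp
    rw [← h1] at h2
    omega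
  refine sum_nbij' (fun j => p - j) (fun j => p - j) (key hc) (key (by omega)) ?_ ?_ ?_
  · intro j hj; rw [cl_mem] at hj; omega
  · intro j hj; rw [cl_mem] at hj; omega
  · intro j hj
    rw [cl_mem] at hj
    congr 1; omega

theorem cl0_sum (h3 : 3 < p) (r : ℕ) : ∑ j ∈ cl p 0, ((p : ℚ) / j) ^ r = ((p : ℚ) / 3) ^ r * H (p / 3) r := by
  unfold H
  rw [mul_sum]
  symm
  refine sum_nbij' (fun i => 3 * (i + 1)) (fun j => j / 3 - 1) ?_ ?_ ?_ ?_ ?_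
  · intro i hi
    rw [mem_range] at hi
    rw [cl_mem]
    have h0 : p % 3 ≠ 0 := by
      intro h0
      have := (Nat.prime_dvd_prime_iff_eq Nat.prime_three hp.out).mp (Nat.dvd_of_mod_eq_zero h0)
      omega
    refine ⟨by omega, by omega, by omega⟩
  · intro j hj
    rw [cl_mem] at hj
    rw [mem_range]
    omega
  · intro i _; show 3 * (i + 1) / 3 - 1 = i; omega
  · intro j hj
    rw [cl_mem] at hj
    show 3 * (j / 3 - 1 + 1) = j
    omega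
  · intro i _
    have : ((i : ℚ) + 1) ≠ 0 := by positivity
    push_cast
    rw [div_pow, div_pow, mul_pow]
    field_simp

/-- the ratio for `a = 1` -/
theorem ratio_one (h3 : 3 < p) : I p 4 (∏ j ∈ (range p).filter (fun j => ¬ p ∣ j), xf p j -
    (1 + 2 * (p : ℚ) ^ 2 * H (p - 1) 2 - (p : ℚ) ^ 2 / 3 * H (p / 3) 2 - 16 * (p : ℚ) ^ 3 / 27 * H (p / 3) 3)) := by
  have hm3 : p % 3 ≠ 0 := by
    intro h0
    have := (Nat.prime_dvd_prime_iff_eq Nat.prime_three hp.out).mp (Nat.dvd_of_mod_eq_zero h0)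
    omega
  set y : ℕ → ℚ := fun j => if j % 3 = 0 then 2 * ((p : ℚ) / j) ^ 2 - 6 * ((p : ℚ) / j) ^ 3
    else if (j + p) % 3 = 0 then 2 * ((p : ℚ) / j) ^ 2 - 10 * ((p : ℚ) / j) ^ 3
    else -((p : ℚ) / j) ^ 2 + 4 * ((p : ℚ) / j) ^ 3 with hy
  have hset : (range p).filter (fun j => ¬ p ∣ j) = cl p 0 ∪ (cl p 1 ∪ cl p 2) := by
    ext j
    rw [mem_union, mem_union, cl_mem, cl_mem, cl_mem, mem_filter, mem_range]
    constructor
    · rintro ⟨h1, h2⟩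
      have h0 : 0 < j := Nat.pos_of_ne_zero fun h => h2 (h ▸ dvd_zero _)
      have c1 : p % 3 = 1 ∨ p % 3 = 2 := by omega
      have c2 : j % 3 = 0 ∨ j % 3 = 1 ∨ j % 3 = 2 := by omega
      rcases c1 with c1 | c1 <;> rcases c2 with c2 | c2 | c2 <;> omega
    · intro h
      have h0 : 0 < j ∧ j < p := by rcases h with h | h | h <;> exact ⟨h.1, h.2.1⟩
      exact ⟨h0.2, fun h => absurd (Nat.le_of_dvd h0.1 h) (by omega)⟩
  have hd1 : Disjoint (cl p 1) (cl p 2) := by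
    rw [disjoint_left]; intro j h1 h2
    rw [cl_mem] at h1 h2; omega
  have hd0 : Disjoint (cl p 0) (cl p 1 ∪ cl p 2) := by
    rw [disjoint_left]; intro j h1 h2
    rw [mem_union, cl_mem, cl_mem] at h2
    rw [cl_mem] at h1; omega
  have hbig : ∀ {j : ℕ}, 0 < j → j < p → EQ p 4 (xf p j) (1 + y j) ∧ I p 2 (y j) := by
    intro j h0 hj
    have hx := xj h0 hj
    have hm := hx.mem
    have hx2 : I p 2 (((p : ℚ) / j) ^ 2) := by rw [sq]; exact hx.mul hx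
    have hx3 : I p 2 (((p : ℚ) / j) ^ 3) := by rw [pow_succ]; exact hx2.mulR hm
    have hx4 : I p 4 (((p : ℚ) / j) ^ 4) := by
      have := hx2.mul hx2
      rwa [show ((p : ℚ) / j) ^ 2 * ((p : ℚ) / j) ^ 2 = ((p : ℚ) / j) ^ 4 by ring] at this
    have hI : I p 2 (y j) := by
      simp only [hy]
      split_ifs
      · exact (hx2.mulL (nm 2)).sub (hx3.mulL (nm 6))
      · exact (hx2.mulL (nm 2)).sub (hx3.mulL (nm 10))
      · exact hx2.neg.add (hx3.mulL (nm 4))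
    refine ⟨?_, hI⟩
    have hk : ∀ z : ℚ, I p 4 (z - (1 + y j)) → EQ p 4 z (1 + y j) := by
      intro z hz
      have h1 : 1 + y j ∈ Zp p := add_mem (one_mem _) hI.mem
      exact ⟨by have := add_mem hz.mem h1; rwa [sub_add_cancel] at this, h1, hz⟩
    apply hk
    by_cases c0 : j % 3 = 0
    · rw [xf_0 c0]
      simp only [hy, if_pos c0]
      have hu := U1 hx (nm 3)
      have hu0 := hu.1
      have e : 1 + 2 * ((p : ℚ) / j) ^ 2 / (1 + 3 * ((p : ℚ) / j)) - (1 + (2 * ((p : ℚ) / j) ^ 2 - 6 * ((p : ℚ) / j) ^ 3)) =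
          ((p : ℚ) / j) ^ 4 * (18 * (1 + 3 * ((p : ℚ) / j))⁻¹) := by
        have hi := inv_mul_cancel₀ hu0
        rw [div_eq_mul_inv _ (1 + 3 * ((p : ℚ) / j))]
        linear_combination 2 * ((p : ℚ) / j) ^ 2 * (1 - 3 * ((p : ℚ) / j)) * hi
      rw [e]
      exact hx4.mulR (mul_mem (nm 18) hu.2.2)
    · by_cases c1 : (j + p) % 3 = 0
      · rw [xf_1 c0 c1]
        simp only [hy, if_neg c0, if_pos c1]
        have hu := (U1 hx (one_mem _)).mul (U1 hx (nm 4))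
        have hi := inv_mul_cancel₀ hu.1
        have e : 1 + 2 * ((p : ℚ) / j) ^ 2 / ((1 + 1 * ((p : ℚ) / j)) * (1 + 4 * ((p : ℚ) / j))) - (1 + (2 * ((p : ℚ) / j) ^ 2 - 10 * ((p : ℚ) / j) ^ 3)) =
            ((p : ℚ) / j) ^ 4 * ((42 + 40 * ((p : ℚ) / j)) * ((1 + 1 * ((p : ℚ) / j)) * (1 + 4 * ((p : ℚ) / j)))⁻¹) := by
          rw [div_eq_mul_inv _ ((1 + 1 * ((p : ℚ) / j)) * (1 + 4 * ((p : ℚ) / j)))]
          linear_combination 2 * ((p : ℚ) / j) ^ 2 * (1 - 5 * ((p : ℚ) / j)) * hi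
        rw [e]
        exact hx4.mulR (mul_mem (add_mem (nm 42) (mul_mem (nm 40) hm)) hu.2.2)
      · rw [xf_2 c0 c1]
        simp only [hy, if_neg c0, if_neg c1]
        have hu := (U1 hx (nm (p := p) 2)).pow 2
        have hi := inv_mul_cancel₀ hu.1
        have e : 1 - ((p : ℚ) / j) ^ 2 / (1 + 2 * ((p : ℚ) / j)) ^ 2 - (1 + (-((p : ℚ) / j) ^ 2 + 4 * ((p : ℚ) / j) ^ 3)) =
            ((p : ℚ) / j) ^ 4 * (-(12 + 16 * ((p : ℚ) / j)) * ((1 + 2 * ((p : ℚ) / j)) ^ 2)⁻¹) := by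
          rw [div_eq_mul_inv _ ((1 + 2 * ((p : ℚ) / j)) ^ 2)]
          linear_combination -((p : ℚ) / j) ^ 2 * (1 - 4 * ((p : ℚ) / j)) * hi
        rw [e]
        exact hx4.mulR (mul_mem (neg_mem (add_mem (nm 12) (mul_mem (nm 16) hm))) hu.2.2)
  have hpos : ∀ j ∈ (range p).filter (fun j => ¬ p ∣ j), 0 < j ∧ j < p := by
    intro j hj
    rw [mem_filter, mem_range] at hj
    exact ⟨Nat.pos_of_ne_zero fun h => hj.2 (h ▸ dvd_zero _), hj.1⟩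
  have hP := prod_exp1 (p := p) (s := (range p).filter (fun j => ¬ p ∣ j)) (f := xf p) (y := y)
    (fun j hj => (hbig (hpos j hj).1 (hpos j hj).2).1) (fun j hj => (hbig (hpos j hj).1 (hpos j hj).2).2)
  -- the sum of `y`
  have hS : ∑ j ∈ (range p).filter (fun j => ¬ p ∣ j), y j =
      2 * ∑ j ∈ (range p).filter (fun j => ¬ p ∣ j), ((p : ℚ) / j) ^ 2 +
      (-6 * ∑ j ∈ cl p 0, ((p : ℚ) / j) ^ 3 - 10 * ∑ j ∈ cl p 1, ((p : ℚ) / j) ^ 3 +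
        ∑ j ∈ cl p 2, (-3 * ((p : ℚ) / j) ^ 2 + 4 * ((p : ℚ) / j) ^ 3)) := by
    have e0 : ∑ j ∈ cl p 0, y j = ∑ j ∈ cl p 0, (2 * ((p : ℚ) / j) ^ 2 + -6 * ((p : ℚ) / j) ^ 3) := sum_congr rfl fun j hj => by
      rw [cl_mem] at hj
      simp only [hy, if_pos (show j % 3 = 0 by omega)]; ring
    have e1 : ∑ j ∈ cl p 1, y j = ∑ j ∈ cl p 1, (2 * ((p : ℚ) / j) ^ 2 + -10 * ((p : ℚ) / j) ^ 3) := sum_congr rfl fun j hj => by
      rw [cl_mem] at hj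
      simp only [hy, if_neg (show ¬ j % 3 = 0 by omega), if_pos (show (j + p) % 3 = 0 by omega)]; ring
    have e2 : ∑ j ∈ cl p 2, y j = ∑ j ∈ cl p 2, (2 * ((p : ℚ) / j) ^ 2 + (-3 * ((p : ℚ) / j) ^ 2 + 4 * ((p : ℚ) / j) ^ 3)) := sum_congr rfl fun j hj => by
      rw [cl_mem] at hj
      simp only [hy, if_neg (show ¬ j % 3 = 0 by omega), if_neg (show ¬ (j + p) % 3 = 0 by omega)]; ring
    rw [hset, sum_union hd0, sum_union hd1, sum_union hd0, sum_union hd1, e0, e1, e2, sum_add_distrib, sum_add_distrib,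
      sum_add_distrib, ← mul_sum, ← mul_sum, ← mul_sum, ← mul_sum, ← mul_sum]
    ring
  have hH : ∑ j ∈ (range p).filter (fun j => ¬ p ∣ j), ((p : ℚ) / j) ^ 2 = (p : ℚ) ^ 2 * H (p - 1) 2 := by
    unfold H
    rw [mul_sum]
    symm
    refine sum_nbij' (fun i => i + 1) (fun j => j - 1) ?_ ?_ ?_ ?_ ?_
    · intro i hi
      rw [mem_range] at hi
      rw [mem_filter, mem_range]
      exact ⟨by omega, fun h => absurd (Nat.le_of_dvd (by omega) h) (by omega)⟩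
    · intro j hj
      have := hpos j hj
      rw [mem_range]; omega
    · intro i _; show i + 1 - 1 = i; omega
    · intro j hj
      have := hpos j hj
      show j - 1 + 1 = j; omega
    · intro i _
      push_cast
      rw [div_pow]; ring
  -- class 1
  have hc1 : I p 4 (∑ j ∈ cl p 1, ((p : ℚ) / j) ^ 3) := by
    have h1 := cl_refl (p := p) (c := 1) (c' := 1) (by norm_num) (fun j => ((p : ℚ) / j) ^ 3)
    have h2 : I p 4 (∑ j ∈ cl p 1, ((p : ℚ) / ((p - j : ℕ) : ℚ)) ^ 3 + ∑ j ∈ cl p 1, ((p : ℚ) / j) ^ 3) := by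
      rw [← sum_add_distrib]
      exact I.sum fun j hj => (x_refl (cl_mem.mp hj).1 (cl_mem.mp hj).2.1).2
    rw [← h1, ← two_mul] at h2
    exact (u2 (by omega)).cancel h2
  -- class 2
  have hc2 : I p 4 (∑ j ∈ cl p 2, (-3 * ((p : ℚ) / j) ^ 2 + 4 * ((p : ℚ) / j) ^ 3) -
      (-3 * ∑ j ∈ cl p 0, ((p : ℚ) / j) ^ 2 - 10 * ∑ j ∈ cl p 0, ((p : ℚ) / j) ^ 3)) := by
    rw [cl_refl (p := p) (c := 2) (c' := 0) (by norm_num) (fun j => (-3 * ((p : ℚ) / j) ^ 2 + 4 * ((p : ℚ) / j) ^ 3)), mul_sum, mul_sum,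
      ← sum_sub_distrib, ← sum_sub_distrib]
    refine I.sum fun j hj => ?_
    obtain ⟨r2, r3⟩ := x_refl (p := p) (cl_mem.mp hj).1 (cl_mem.mp hj).2.1
    have := (r2.mulL (neg_mem (nm 3))).add (r3.mulL (nm 4))
    refine icg this ?_
    ring
  rw [hS, hH] at hP
  rw [cl0_sum h3, cl0_sum h3] at hc2
  rw [cl0_sum h3] at hP
  have := (hP.2.2.sub (hc1.mulL (nm 10))).add hc2
  refine icg this ?_
  ring

end Pool.Agent.H547.V1
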