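import Pool.Agent.H547.P4.Q2
import Pool.Agent.H547.P4.T6
import Pool.Agent.H547.P3.D7b
import Pool.Agent.H547.P4.Tr
import Pool.Graph.R_pool_sql_team_seeded_3997aac3.Q267.Seven.Inert
import Pool.Graph.R_pool_sql_team_seeded_3997aac3.Q267.Seven.Root
import Mathlib.Algebra.QuadraticAlgebra.Basic

set_option autoImplicit false
set_option linter.unusedSectionVars false

/-!
# Part (d): the inert primes
-/

namespace Pool.Agent.H547.V1

open Finset Pool.Agent.H547.P3 Pool.Agent.H547.P4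

variable {p : ℕ} [hp : Fact p.Prime] {n : ℕ}

section A

variable {A : Type*} [CommRing A] (φ : ZMod (p ^ 3) →+* A)

include φ in
/-- Fermat modulo `p` -/
theorem fermA (a : ℕ) : ∃ t : A, (a : A) ^ p = a + p * t := by
  have h1 : red p ((a : ZMod (p ^ 3)) ^ p - a) = 0 := by
    rw [map_sub, map_pow, map_natCast, ZMod.pow_card, sub_self]
  obtain ⟨t, ht⟩ := red_ker h1
  refine ⟨φ t, ?_⟩
  have := congrArg φ ht
  rw [map_sub, map_pow, map_natCast, map_mul, map_natCast] at this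
  linear_combination this

theorem gT1_phi {E : A} {w : ZMod (p ^ 3)} (hE : E = φ (w ^ (p - 1))) : gT1 φ E (φ w) = fun κ => φ (fT1 p w κ) := by
  funext κ
  unfold gT1 fam fT1
  rw [hE]
  simp only [map_mul, map_pow, map_sum]

theorem gT2_phi {E : A} {w : ZMod (p ^ 3)} (hE : E = φ (w ^ (p - 1))) : gT2 φ E (φ w) = fun κ => φ (fT2 p w κ) := by
  funext κ
  unfold gT2 fam fT2
  rw [hE]
  simp only [map_mul, map_pow, map_sum]

/-- transfer of vanishing modulo `p²` from the first to the second family -/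
theorem inertA (hp53 : 53 ≤ p) (hn : p = 2 * n + 1) {h : ZMod (p ^ 3)} (hh : 2 * h = 1) {r s : A} (hr : r ^ 2 = -7)
    (hrp : r ^ p = -r + p * s) {i15 i81 : ZMod (p ^ 3)} (hi : 15 * i15 = 1) (hi81 : 81 * i81 = 1)
    (k0 : (p : ZMod (p ^ 3)) * fT1 p (-i15 ^ 3) 0 = 0) (k1 : (p : ZMod (p ^ 3)) * c1 h (fT1 p (-i15 ^ 3)) = 0)
    (k2 : (p : ZMod (p ^ 3)) * c2 h (fT1 p (-i15 ^ 3)) = 0) : φ ((p : ZMod (p ^ 3)) * fT2 p (-i81) 0) = 0 := by
  have hk : 2 * φ h = 1 := by rw [← map_ofNat φ 2, ← map_mul, hh, map_one]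
  set k := φ h with hkdef
  set j15 := φ i15 with hj15
  have hj : 15 * j15 = 1 := by rw [← map_ofNat φ 15, ← map_mul, hi, map_one]
  have hj81 : 81 * φ i81 = 1 := by rw [← map_ofNat φ 81, ← map_mul, hi81, map_one]
  have kk : ∀ m, (2 * k) ^ m = 1 := fun m => by rw [hk, one_pow]
  have u2 : IsUnit (2 : A) := IsUnit.of_mul_eq_one k hk
  have u15 : IsUnit (15 : A) := IsUnit.of_mul_eq_one j15 hj
  have u3 : IsUnit (3 : A) := IsUnit.of_mul_eq_one (5 * j15) (by linear_combination hj)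
  have u7 : IsUnit (7 : A) := by have := A_unit φ 7 (by norm_num) (by omega); simpa using this
  obtain ⟨z0, hz0⟩ : ∃ z0, z0 = k ^ 13 * (47 + 45 * r) := ⟨_, rfl⟩
  obtain ⟨z1, hz1⟩ : ∃ z1, z1 = k ^ 13 * (47 - 45 * r) := ⟨_, rfl⟩
  have e0 : 8192 * z0 = 47 + 45 * r := by rw [hz0]; linear_combination (47 + 45 * r) * kk 13
  have e1 : 8192 * z1 = 47 - 45 * r := by rw [hz1]; linear_combination (47 - 45 * r) * kk 13
  have hzz : 4096 * z0 * z1 = 1 := by
    apply (u2.pow 14).mul_left_cancel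
    linear_combination (8192 * z1) * e0 + (47 + 45 * r) * e1 - 45 ^ 2 * hr
  have uz1 : IsUnit z1 := IsUnit.of_mul_eq_one (4096 * z0) (by linear_combination hzz)
  -- Frobenius
  obtain ⟨Y, hY⟩ : ∃ Y : A, z0 ^ p = z1 + p * Y := by
    obtain ⟨t8, ht8⟩ := fermA φ 8192
    obtain ⟨t47, ht47⟩ := fermA φ 47
    obtain ⟨t45, ht45⟩ := fermA φ 45
    push_cast at ht8 ht47 ht45
    obtain ⟨q, hq⟩ := exists_add_pow_prime_eq hp.out (47 : A) (45 * r)
    rw [← e0, mul_pow, mul_pow, ht8, ht47, ht45, hrp] at hq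
    refine ⟨k ^ 13 * (t47 - t45 * r + 45 * s + t45 * (p * s) + 47 * (45 * r) * q - t8 * z0 ^ p), ?_⟩
    linear_combination k ^ 13 * hq - z0 ^ p * kk 13 + z1 * kk 13 - k ^ 13 * e1
  obtain ⟨e, he⟩ : ∃ e, e = 1 + (p : A) * (4096 * z0 * Y) := ⟨_, rfl⟩
  have hz : z0 ^ p = z1 * e := by rw [hY, he]; linear_combination -(p : A) * Y * hzz
  -- star 1
  obtain ⟨l0, hl0⟩ : ∃ l0, l0 = 1 - 16 * z0 := ⟨_, rfl⟩
  obtain ⟨l1, hl1⟩ : ∃ l1, l1 = 1 - 16 * z1 := ⟨_, rfl⟩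
  have hl0' : 512 * l0 = 15 * (31 - 3 * r) := by rw [hl0]; linear_combination -e0
  have hl1' : 512 * l1 = 15 * (31 + 3 * r) := by rw [hl1]; linear_combination -e1
  have hll : 256 * (l0 * l1) = 225 := by
    apply (u2.pow 10).mul_left_cancel
    linear_combination (512 * l1) * hl0' + 15 * (31 - 3 * r) * hl1' - 225 * 9 * hr
  obtain ⟨li0, hli0⟩ : ∃ li0, li0 = 256 * l1 * j15 ^ 2 := ⟨_, rfl⟩
  obtain ⟨li1, hli1⟩ : ∃ li1, li1 = 256 * l0 * j15 ^ 2 := ⟨_, rfl⟩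
  have hL0 : l0 * li0 = 1 := by rw [hli0]; linear_combination j15 ^ 2 * hll + (15 * j15 + 1) * hj
  have hL1 : l1 * li1 = 1 := by rw [hli1]; linear_combination j15 ^ 2 * hll + (15 * j15 + 1) * hj
  have ul1 : IsUnit l1 := IsUnit.of_mul_eq_one li1 hL1
  have hw0 : z0 ^ 2 * li0 ^ 3 = φ (-i15 ^ 3) := by
    have e1' : -15 ^ 3 * z0 ^ 2 = l0 ^ 3 := by
      apply (u2.pow 27).mul_left_cancel
      linear_combination (-2 * 15 ^ 3 * (8192 * z0 + (47 + 45 * r))) * e0 -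
        ((512 * l0) ^ 2 + (512 * l0) * (15 * (31 - 3 * r)) + (15 * (31 - 3 * r)) ^ 2) * hl0' + (15 ^ 3) * (27 * r - 4887) * hr
    have e2 : l0 ^ 3 * li0 ^ 3 = 1 := by rw [← mul_pow, hL0, one_pow]
    have e3 : (15 : A) ^ 3 * j15 ^ 3 = 1 := by rw [← mul_pow, hj, one_pow]
    rw [map_neg, map_pow, ← hj15]
    linear_combination (-(j15 ^ 3) * li0 ^ 3) * e1' - j15 ^ 3 * e2 - (z0 ^ 2 * li0 ^ 3) * e3
  have hw1 : z1 ^ 2 * li1 ^ 3 = φ (-i15 ^ 3) := by
    have e1' : -15 ^ 3 * z1 ^ 2 = l1 ^ 3 := by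
      apply (u2.pow 27).mul_left_cancel
      linear_combination (-2 * 15 ^ 3 * (8192 * z1 + (47 - 45 * r))) * e1 -
        ((512 * l1) ^ 2 + (512 * l1) * (15 * (31 + 3 * r)) + (15 * (31 + 3 * r)) ^ 2) * hl1' + (15 ^ 3) * (-27 * r - 4887) * hr
    have e2 : l1 ^ 3 * li1 ^ 3 = 1 := by rw [← mul_pow, hL1, one_pow]
    have e3 : (15 : A) ^ 3 * j15 ^ 3 = 1 := by rw [← mul_pow, hj, one_pow]
    rw [map_neg, map_pow, ← hj15]
    linear_combination (-(j15 ^ 3) * li1 ^ 3) * e1' - j15 ^ 3 * e2 - (z1 ^ 2 * li1 ^ 3) * e3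
  have uw : IsUnit (φ (-i15 ^ 3)) := by
    have : IsUnit (-i15 ^ 3) := ((IsUnit.of_mul_eq_one 15 (by linear_combination hi)).pow 3).neg
    exact this.map φ
  have hE1 : e ^ 2 * (l1 * li0 ^ p) ^ 3 = φ ((-i15 ^ 3) ^ (p - 1)) := by
    apply uw.mul_right_cancel
    have f1 : (φ (-i15 ^ 3)) ^ p = φ ((-i15 ^ 3) ^ (p - 1)) * φ (-i15 ^ 3) := by
      rw [← map_pow, ← map_mul, ← pow_succ, Nat.sub_add_cancel hp.out.one_le]
    rw [← f1]
    have f2 : (φ (-i15 ^ 3)) ^ p = (z0 ^ p) ^ 2 * (li0 ^ p) ^ 3 := by rw [← hw0, mul_pow, ← pow_mul, ← pow_mul, ← pow_mul, ← pow_mul, mul_comm 2, mul_comm 3]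
    rw [f2, hz, ← hw1]
    have f3 : l1 ^ 3 * li1 ^ 3 = 1 := by rw [← mul_pow, hL1, one_pow]
    linear_combination (e ^ 2 * (li0 ^ p) ^ 3 * z1 ^ 2) * f3
  obtain ⟨x, hx, -, -, a0, a1, a2⟩ := star1A φ hp53 hn (h := k) hk hz he uz1 hl0 hl1 hL0
  rw [hw0, hE1, gT1_phi φ rfl] at a0 a1 a2
  rw [hkdef, ← c1_map] at a1
  rw [hkdef, ← c2_map] at a2
  rw [← hkdef] at a1 a2
  have K0 : (p : A) * φ (fT1 p (-i15 ^ 3) 0) = 0 := by rw [← map_natCast φ, ← map_mul, k0, map_zero]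
  have K1 : (p : A) * φ (c1 h (fT1 p (-i15 ^ 3))) = 0 := by rw [← map_natCast φ, ← map_mul, k1, map_zero]
  have K2 : (p : A) * φ (c2 h (fT1 p (-i15 ^ 3))) = 0 := by rw [← map_natCast φ, ← map_mul, k2, map_zero]
  have um : IsUnit (2 + 16 * z1) := by
    have e3 : (2 + 16 * z0) * (2 + 16 * z1) * 1024 = 4536 := by
      apply (u2.pow 8).mul_left_cancel
      linear_combination 16384 * hzz + 1024 * e0 + 1024 * e1
    have u4536 : IsUnit (4536 : A) := by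
      have : (4536 : A) = 2 ^ 3 * 3 ^ 4 * 7 := by norm_num
      rw [this]; exact ((u2.pow 3).mul (u3.pow 4)).mul u7
    rw [← e3] at u4536
    exact isUnit_of_mul_isUnit_right (isUnit_of_mul_isUnit_left u4536)
  have G2 : (p : A) * c2 k (gS φ e z0) = 0 := by
    apply (um.pow 2).mul_left_cancel
    linear_combination (-(p : A)) * a2 + l1 ^ 2 * x * K2
  have G1 : (p : A) * c1 k (gS φ e z0) = 0 := by
    apply (um.mul ul1).mul_left_cancel
    linear_combination (-(p : A)) * a1 + l1 ^ 2 * x * K1 - (48 * z1 + 16 * z1 * (2 + 16 * z1)) * G2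
  have G0 : (p : A) * gS φ e z0 0 = 0 := by
    apply (ul1.pow 2).mul_left_cancel
    linear_combination (-(p : A)) * a0 + l1 ^ 2 * x * K0 - 8 * z1 * l1 * G1 - (8 * z1 + 64 * z1 ^ 2) * G2
  -- star 2
  obtain ⟨m0, hm0⟩ : ∃ m0, m0 = 1 - 64 * z0 := ⟨_, rfl⟩
  obtain ⟨m1, hm1⟩ : ∃ m1, m1 = 1 - 64 * z1 := ⟨_, rfl⟩
  have hm0' : 128 * m0 = 9 * (9 - 5 * r) := by rw [hm0]; linear_combination -e0
  have hm1' : 128 * m1 = 9 * (9 + 5 * r) := by rw [hm1]; linear_combination -e1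
  have hmm : 64 * (m0 * m1) = 81 := by
    apply (u2.pow 8).mul_left_cancel
    linear_combination (128 * m1) * hm0' + 9 * (9 - 5 * r) * hm1' - 81 * 25 * hr
  obtain ⟨mi0, hmi0⟩ : ∃ mi0, mi0 = 64 * m1 * φ i81 := ⟨_, rfl⟩
  obtain ⟨mi1, hmi1⟩ : ∃ mi1, mi1 = 64 * m0 * φ i81 := ⟨_, rfl⟩
  have hM0 : m0 * mi0 = 1 := by rw [hmi0]; linear_combination φ i81 * hmm + hj81
  have hM1 : m1 * mi1 = 1 := by rw [hmi1]; linear_combination φ i81 * hmm + hj81
  have um1 : IsUnit m1 := IsUnit.of_mul_eq_one mi1 hM1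
  have hv0 : z0 * mi0 ^ 2 = φ (-i81) := by
    have e1' : -81 * z0 = m0 ^ 2 := by
      apply (u2.pow 14).mul_left_cancel
      linear_combination (-81 * 2) * e0 - (128 * m0 + 9 * (9 - 5 * r)) * hm0' - 81 * 25 * hr
    have e2 : m0 ^ 2 * mi0 ^ 2 = 1 := by rw [← mul_pow, hM0, one_pow]
    rw [map_neg]
    linear_combination (-φ i81 * mi0 ^ 2) * e1' - φ i81 * e2 - (z0 * mi0 ^ 2) * hj81
  have hv1 : z1 * mi1 ^ 2 = φ (-i81) := by
    have e1' : -81 * z1 = m1 ^ 2 := by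
      apply (u2.pow 14).mul_left_cancel
      linear_combination (-81 * 2) * e1 - (128 * m1 + 9 * (9 + 5 * r)) * hm1' - 81 * 25 * hr
    have e2 : m1 ^ 2 * mi1 ^ 2 = 1 := by rw [← mul_pow, hM1, one_pow]
    rw [map_neg]
    linear_combination (-φ i81 * mi1 ^ 2) * e1' - φ i81 * e2 - (z1 * mi1 ^ 2) * hj81
  have uv : IsUnit (φ (-i81)) := by
    have : IsUnit (-i81) := (IsUnit.of_mul_eq_one 81 (by linear_combination hi81)).neg
    exact this.map φ
  have hE2 : e * (m1 * mi0 ^ p) ^ 2 = φ ((-i81) ^ (p - 1)) := by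
    apply uv.mul_right_cancel
    have f1 : (φ (-i81)) ^ p = φ ((-i81) ^ (p - 1)) * φ (-i81) := by
      rw [← map_pow, ← map_mul, ← pow_succ, Nat.sub_add_cancel hp.out.one_le]
    rw [← f1]
    have f2 : (φ (-i81)) ^ p = z0 ^ p * (mi0 ^ p) ^ 2 := by rw [← hv0, mul_pow, ← pow_mul, ← pow_mul, mul_comm 2]
    rw [f2, hz, ← hv1]
    have f3 : m1 ^ 2 * mi1 ^ 2 = 1 := by rw [← mul_pow, hM1, one_pow]
    linear_combination (e * (mi0 ^ p) ^ 2 * z1) * f3
  obtain ⟨x', hx', -, -, b0, -, -⟩ := star2A φ (by omega) hn (h := k) hk hz he uz1 hm0 hm1 hM0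
  rw [hv0, hE2, gT2_phi φ rfl] at b0
  have ux' : IsUnit x' := by
    have : IsUnit (x' ^ 2 * m0) := by rw [hx']; exact um1
    exact isUnit_of_mul_isUnit_left (y := x' * m0) (by rwa [show x' * (x' * m0) = x' ^ 2 * m0 by ring])
  rw [map_mul, map_natCast]
  apply ((um1.pow 2).mul ux').mul_left_cancel
  linear_combination (p : A) * b0 + m1 ^ 2 * G0 + 32 * z1 * m1 * G1 + (32 * z1 + 1024 * z1 ^ 2) * G2

end A

/-- `z = 1`: all components of the first family vanish modulo `p²` -/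
theorem inert_one (hp53 : 53 ≤ p) (hn : p = 2 * n + 1) {h : ZMod (p ^ 3)} (hh : 2 * h = 1) {i15 : ZMod (p ^ 3)} (hi : 15 * i15 = 1)
    (hS : (p : ZMod (p ^ 3)) * fS p 1 0 = 0) :
    (p : ZMod (p ^ 3)) * fT1 p (-i15 ^ 3) 0 = 0 ∧ (p : ZMod (p ^ 3)) * c1 h (fT1 p (-i15 ^ 3)) = 0 ∧
    (p : ZMod (p ^ 3)) * c2 h (fT1 p (-i15 ^ 3)) = 0 := by
  have hP := p3_zero (p := p)
  have u15 : IsUnit (15 : ZMod (p ^ 3)) := IsUnit.of_mul_eq_one i15 hi
  obtain ⟨e0, e1, e2⟩ := fS_comps (h := h) (ν := 0) (z := 1) hh (by simp)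
  have hq := quad3 (h := h) (ν := 0) (z := 1) hn hh (by simp)
  have C2 : (p : ZMod (p ^ 3)) * c2 h (fS p 1) = 0 := by
    rw [e2]
    linear_combination (∑ j ∈ range p, sc p j * (1 : ZMod (p ^ 3)) ^ j) * hP
  have C1 : (p : ZMod (p ^ 3)) * c1 h (fS p 1) = 0 := by
    set B := ∑ j ∈ range p, sb p j * (1 : ZMod (p ^ 3)) ^ j with hB
    have e1' : c1 h (fS p 1) = (p : ZMod (p ^ 3)) * B := by rw [e1]; ring
    have e2' : c2 h (fS p 1) = (p : ZMod (p ^ 3)) ^ 2 * ∑ j ∈ range p, sc p j * (1 : ZMod (p ^ 3)) ^ j := by rw [e2]; ring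
    have h1 : (p : ZMod (p ^ 3)) ^ 2 * B ^ 2 = 0 := by
      rw [e1', e2'] at hq
      linear_combination hq + 2 * (p : ZMod (p ^ 3)) * (∑ j ∈ range p, sc p j * (1 : ZMod (p ^ 3)) ^ j) * hS
    -- `B` is divisible by `p`
    have h2 : red p B = 0 := by
      by_contra hne
      have hu := red_unit hne
      have h3 : (p : ZMod (p ^ 3)) ^ 2 = 0 := (hu.pow 2).mul_left_eq_zero.mp h1
      have h4 : (((p ^ 2 : ℕ)) : ZMod (p ^ 3)) = 0 := by push_cast; exact h3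
      rw [ZMod.natCast_eq_zero_iff] at h4
      have := Nat.le_of_dvd (pow_pos hp.out.pos 2) h4
      have h5 : p ^ 2 < p ^ 3 := Nat.pow_lt_pow_right hp.out.one_lt (by norm_num)
      omega
    obtain ⟨t, ht⟩ := red_ker h2
    rw [e1', ht]
    linear_combination t * hP
  obtain ⟨x, hx, -, o0, o1, o2⟩ := star1 (z := 1) (l := -15) (li := -i15) hp53 hn hh isUnit_one (by norm_num)
    (by linear_combination hi)
  have ew : (1 : ZMod (p ^ 3)) ^ 2 * (-i15) ^ 3 = -i15 ^ 3 := by ring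
  rw [ew] at o0 o1 o2
  have ux : IsUnit ((-15 : ZMod (p ^ 3)) ^ 2 * x) := (u15.neg.pow 2).mul (IsUnit.of_mul_eq_one x (by linear_combination hx))
  refine ⟨?_, ?_, ?_⟩
  · apply ux.mul_left_cancel
    linear_combination (p : ZMod (p ^ 3)) * o0 + (-15) ^ 2 * hS + 8 * (-15) * C1 + 72 * C2
  · apply ux.mul_left_cancel
    linear_combination (p : ZMod (p ^ 3)) * o1 + 18 * (-15) * C1 + (48 + 16 * 18) * C2
  · apply ux.mul_left_cancel
    linear_combination (p : ZMod (p ^ 3)) * o2 + 18 ^ 2 * C2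

/-- the second family at `1/81` vanishes modulo `p²` -/
theorem inert_T2 (hp53 : 53 ≤ p) (h7 : jacobiSym (p : ℤ) 7 = -1) {i81 : ZMod (p ^ 3)} (hi81 : 81 * i81 = 1) :
    (p : ZMod (p ^ 3)) * fT2 p (-i81) 0 = 0 := by
  have hP := p3_zero (p := p)
  obtain ⟨h, hh⟩ := exists_half' (p := p) (by omega)
  obtain ⟨n, hn⟩ : ∃ n, p = 2 * n + 1 := by
    have := hp.out.odd_of_ne_two (by omega)
    obtain ⟨n, hn⟩ := this
    exact ⟨n, hn⟩
  have hno := Pool.Agent.Q267.Seven.no_root p (by omega) (by omega) h7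
  have hin := Pool.Agent.Q267.Seven.inert_sum p n hn (by omega) (by omega) hno
  -- the sum at `z = 1`
  have hS : (p : ZMod (p ^ 3)) * fS p 1 0 = 0 := by
    rw [fS_zero (by omega), ← half_sum_b (by omega) (1 : ZMod (p ^ 3)), show (p - 1) / 2 = n by omega]
    obtain ⟨t, ht⟩ := hin
    have := congrArg (Int.cast : ℤ → ZMod (p ^ 3)) ht
    push_cast at this
    have e : ∑ k ∈ range (n + 1), (uc k : ZMod (p ^ 3)) * 1 ^ k = ∑ k ∈ range (n + 1), ((k.centralBinom : ℕ) : ZMod (p ^ 3)) ^ 3 := by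
      refine sum_congr rfl fun k _ => ?_
      unfold uc
      rw [Nat.centralBinom_eq_two_mul_choose]; push_cast; ring
    rw [e, this]
    linear_combination (t : ZMod (p ^ 3)) * hP
  have n15 : ¬ (p : ℤ) ∣ 15 := by
    intro h1
    have h2 : p ∣ 3 * 5 := by exact_mod_cast h1
    rcases hp.out.dvd_mul.mp h2 with h3 | h3 <;> have := Nat.le_of_dvd (by norm_num) h3 <;> omega
  obtain ⟨i15, hi⟩ := inv_exists n15
  push_cast at hi
  obtain ⟨k0, k1, k2⟩ := inert_one hp53 hn hh hi hS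
  -- the quadratic extension
  let A := QuadraticAlgebra (ZMod (p ^ 3)) (-7) 0
  let φ : ZMod (p ^ 3) →+* A := algebraMap (ZMod (p ^ 3)) A
  have hinj : Function.Injective φ := QuadraticAlgebra.algebraMap_injective
  let r : A := ⟨0, 1⟩
  have hr : r ^ 2 = -7 := by
    rw [sq]
    show ((⟨0, 1⟩ : QuadraticAlgebra (ZMod (p ^ 3)) (-7) 0) * ⟨0, 1⟩ : QuadraticAlgebra (ZMod (p ^ 3)) (-7) 0) = -7
    apply QuadraticAlgebra.ext
    · simp; exact (QuadraticAlgebra.re_ofNat 7).symm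
    · simp; exact (QuadraticAlgebra.im_ofNat 7)
  -- Frobenius
  have hleg : legendreSym p (-7) = -1 := by
    rcases legendreSym.eq_one_or_neg_one p (a := -7) (by
      intro h0
      have h1 : (p : ℤ) ∣ -7 := (ZMod.intCast_zmod_eq_zero_iff_dvd _ p).mp h0
      rw [Int.dvd_neg] at h1
      have h2 : p ∣ 7 := by exact_mod_cast h1
      have := Nat.le_of_dvd (by norm_num) h2
      omega) with h1 | h1
    · exfalso
      have h2 := (legendreSym.eq_one_iff p (a := -7) (by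
        intro h0
        have h1 : (p : ℤ) ∣ -7 := (ZMod.intCast_zmod_eq_zero_iff_dvd _ p).mp h0
        rw [Int.dvd_neg] at h1
        have h2 : p ∣ 7 := by exact_mod_cast h1
        have := Nat.le_of_dvd (by norm_num) h2
        omega)).mp h1
      obtain ⟨s, hs⟩ := h2
      obtain ⟨h', hh'⟩ : ∃ h' : ZMod p, 2 * h' = 1 := ⟨red p h, by
        have := congrArg (red p) hh
        rwa [map_mul, map_ofNat, map_one] at this⟩
      apply hno ((1 + s) * h')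
      push_cast at hs
      linear_combination (-(h' ^ 2)) * hs + (s * h' - 3 * h' - 2) * hh'
    · exact h1
  have h7n : red p ((-7) ^ n) = -1 := by
    have h1 := legendreSym.eq_pow p (-7)
    rw [hleg, show p / 2 = n by omega] at h1
    rw [map_pow, map_neg, map_ofNat]
    push_cast at h1
    exact h1.symm
  obtain ⟨t, ht⟩ : ∃ t : ZMod (p ^ 3), (-7) ^ n = -1 + (p : ZMod (p ^ 3)) * t := by
    obtain ⟨t, ht⟩ := red_ker (w := (-7 : ZMod (p ^ 3)) ^ n + 1) (by rw [map_add, h7n, map_one]; ring)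
    exact ⟨t, by linear_combination ht⟩
  have hrp : r ^ p = -r + (p : A) * (φ t * r) := by
    have h1 : r ^ p = (r ^ 2) ^ n * r := by rw [← pow_mul, ← pow_succ, ← hn]
    have h2 := congrArg φ ht
    rw [map_pow, map_add, map_mul, map_neg, map_neg, map_one, map_natCast, map_ofNat] at h2
    rw [h1, hr, h2]
    ring
  have hfin := inertA φ hp53 hn hh hr hrp hi hi81 k0 k1 k2
  apply hinj
  rw [hfin, map_zero]

end Pool.Agent.H547.V1
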