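import Pool.Agent.H547.V1.PA
import Pool.Agent.H547.V1.PD
import Pool.Agent.H547.P4.Q3
import Pool.Agent.H547.P3.D7c
import Pool.Agent.H547.P4.Tr
import Pool.Agent.H828.SUN35.A6
import Pool.Agent.H196.SUN35.A2
import Pool.Agent.H200.SUN35.H6
import Pool.Agent.H166.SUN35.A4
import Pool.Agent.H166.SUN35.A5
import Pool.Agent.H287.SUN35.IB
import Pool.Agent.H286.SUN35.H3
import Pool.Agent.H284.SUN35.C21
import Pool.Agent.H404.SUN35.B

set_option autoImplicit false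
set_option linter.unusedSectionVars false

/-!
# Assembly
-/

namespace Pool.Agent.H547.V1

open Finset Pool.Agent.R439.PL Pool.Agent.H547.P3 Pool.Agent.H547.P4
open scoped Nat

/-- `∑_{k<p} M_k / 81^k` -/
def T81 (p : ℕ) : ℚ := ∑ k ∈ range p, (((4 * k)! : ℚ) / (k ! : ℚ) ^ 4) / (81 : ℚ) ^ k

/-- `∑_{k<p} C(2k,k)³` -/
def C3 (p : ℕ) : ℚ := ∑ k ∈ range p, (((2 * k).choose k : ℕ) : ℚ) ^ 3

/-- running values for the kernel -/
def sv : ℕ → ℕ × ℕ
  | 0 => (1, 0)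
  | k + 1 => (8 * (2 * k + 1) * (4 * k + 1) * (4 * k + 3) * (sv k).1 / (k + 1) ^ 3, (sv k).2 * 81 + (sv k).1)

def su : ℕ → ℕ × ℕ
  | 0 => (1, 0)
  | k + 1 => (8 * (2 * k + 1) ^ 3 * (su k).1 / (k + 1) ^ 3, (su k).2 + (su k).1)

theorem sv_eq (k : ℕ) : sv k = (v2 k, ∑ j ∈ range k, v2 j * 81 ^ (k - 1 - j)) := by
  induction k with
  | zero => simp [sv, v2]
  | succ k ih =>
    have h1 : 8 * (2 * k + 1) * (4 * k + 1) * (4 * k + 3) * v2 k / (k + 1) ^ 3 = v2 (k + 1) := by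
      rw [← v2_succ k]
      exact Nat.mul_div_cancel _ (by positivity)
    have h2 : (∑ j ∈ range k, v2 j * 81 ^ (k - 1 - j)) * 81 + v2 k = ∑ j ∈ range (k + 1), v2 j * 81 ^ (k + 1 - 1 - j) := by
      rw [sum_range_succ, sum_mul]
      congr 1
      · refine sum_congr rfl fun j hj => ?_
        rw [mem_range] at hj
        rw [mul_assoc, ← pow_succ]
        congr 2; omega
      · rw [show k + 1 - 1 - k = 0 by omega, pow_zero, mul_one]
    show (8 * (2 * k + 1) * (4 * k + 1) * (4 * k + 3) * (sv k).1 / (k + 1) ^ 3, (sv k).2 * 81 + (sv k).1) = _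
    rw [ih, ← h2, ← h1]

theorem su_eq (k : ℕ) : su k = (uc k, ∑ j ∈ range k, uc j) := by
  induction k with
  | zero => simp [su, uc]
  | succ k ih =>
    have h0 : uc (k + 1) * (k + 1) ^ 3 = 8 * (2 * k + 1) ^ 3 * uc k := by
      have := uc_succ (A := ℤ) k
      exact_mod_cast this
    have h1 : 8 * (2 * k + 1) ^ 3 * uc k / (k + 1) ^ 3 = uc (k + 1) := by
      rw [← h0]
      exact Nat.mul_div_cancel _ (by positivity)
    show (8 * (2 * k + 1) ^ 3 * (su k).1 / (k + 1) ^ 3, (su k).2 + (su k).1) = _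
    rw [ih, sum_range_succ, ← h1]

theorem T81_eq {p : ℕ} (hp0 : 0 < p) : T81 p * 81 ^ (p - 1) = ((sv p).2 : ℚ) := by
  rw [sv_eq]
  unfold T81
  rw [sum_mul]
  push_cast
  refine sum_congr rfl fun k hk => ?_
  rw [mem_range] at hk
  rw [← v2_Q]
  have : (81 : ℚ) ^ (p - 1) = 81 ^ (p - 1 - k) * 81 ^ k := by rw [← pow_add]; congr 1; omega
  rw [this]
  field_simp

theorem C3_eq (p : ℕ) : C3 p = ((su p).2 : ℚ) := by
  rw [su_eq]
  unfold C3
  push_cast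
  refine sum_congr rfl fun k _ => ?_
  unfold uc
  push_cast
  rfl

theorem cases_c {p : ℕ} (h0 : p.Prime) (h3 : 3 < p) (hlt : p < 53) (h7 : p % 7 = 1 ∨ p % 7 = 2 ∨ p % 7 = 4) :
    p = 11 ∨ p = 23 ∨ p = 29 ∨ p = 37 ∨ p = 43 := by
  interval_cases p <;> first | omega | (exfalso; revert h0; norm_num)

theorem cases_d {p : ℕ} (h0 : p.Prime) (h3 : 3 < p) (hlt : p < 53) (h7 : p % 7 = 3 ∨ p % 7 = 5 ∨ p % 7 = 6) :
    p = 5 ∨ p = 13 ∨ p = 17 ∨ p = 19 ∨ p = 31 ∨ p = 41 ∨ p = 47 := by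
  interval_cases p <;> first | omega | (exfalso; revert h0; norm_num)

section

variable {p : ℕ} [hp : Fact p.Prime]

theorem Zp_den {u : ℚ} (h : ¬ p ∣ u.den) : u ∈ Zp p := ⟨u.num, u.den, fun h1 => h (by exact_mod_cast h1), (Rat.num_div_den u).symm⟩

theorem U81 (h3 : 3 < p) : U p (81 : ℚ) := by
  have := (u3 (p := p) h3).pow 4
  norm_num at this
  exact this

theorem small_c (h3 : 3 < p) (h : (((su p).2 * 81 ^ (p - 1) : ℕ) : ℤ) % (p : ℤ) ^ 3 = ((sv p).2 : ℤ) % (p : ℤ) ^ 3) : I p 3 (C3 p - T81 p) := by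
  have h1 : (p : ℤ) ^ 3 ∣ (((su p).2 * 81 ^ (p - 1) : ℕ) : ℤ) - ((sv p).2 : ℤ) := Int.ModEq.dvd (Eq.symm h)
  obtain ⟨t, ht⟩ := h1
  apply ((U81 (p := p) h3).pow (p - 1)).cancel
  refine ⟨(t : ℚ), int_mem t, ?_⟩
  have h2 := congrArg (Int.cast : ℤ → ℚ) ht
  push_cast at h2
  rw [mul_sub, mul_comm _ (T81 p), T81_eq (by omega), C3_eq]
  linear_combination h2

theorem small_d (h3 : 3 < p) (h : (sv p).2 % p ^ 2 = 0) : I p 2 (T81 p) := by
  obtain ⟨t, ht⟩ := Nat.dvd_of_mod_eq_zero h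
  apply ((U81 (p := p) h3).pow (p - 1)).cancel
  refine ⟨(t : ℚ), nat_mem t, ?_⟩
  rw [mul_comm, T81_eq (by omega), ht]
  push_cast; ring

theorem Rep_T81 (hp53 : 53 ≤ p) {i81 : ZMod (p ^ 3)} (hi81 : 81 * i81 = 1) : Rep p (T81 p) (fT2 p (-i81) 0) := by
  have n81 : ¬ (p : ℤ) ∣ 81 := by
    intro h1
    have h2 : p ∣ 3 ^ 4 := by exact_mod_cast h1
    have := Nat.le_of_dvd (by norm_num) (hp.out.dvd_of_dvd_pow h2)
    omega
  rw [fT2_zero (by omega)]
  unfold T81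
  refine Rep.sum _ fun k _ => ?_
  have : (((4 * k)! : ℚ) / (k ! : ℚ) ^ 4) / (81 : ℚ) ^ k = (v2 k : ℚ) * (1 / ((81 : ℤ) : ℚ) ^ k) := by rw [v2_Q]; push_cast; ring
  rw [this, neg_neg]
  exact (Rep.nat _).mul (Rep.inv n81 (by push_cast; exact hi81) _)

theorem Rep_C3 (hp5 : 5 ≤ p) : Rep p (C3 p) (fS p 1 0) := by
  rw [fS_zero hp5]
  unfold C3
  refine Rep.sum _ fun k _ => ?_
  have : (((2 * k).choose k : ℕ) : ℚ) ^ 3 = (uc k : ℚ) := by unfold uc; push_cast; rfl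
  rw [this, one_pow, mul_one]
  exact Rep.nat _

theorem jac_cases (h : jacobiSym (p : ℤ) 7 = 1) : p % 7 = 1 ∨ p % 7 = 2 ∨ p % 7 = 4 := by
  have e : jacobiSym (p : ℤ) 7 = jacobiSym ((p % 7 : ℕ) : ℤ) 7 := by
    rw [jacobiSym.mod_left (p : ℤ) 7]
    push_cast
    rfl
  rw [e] at h
  have h7 : p % 7 < 7 := Nat.mod_lt _ (by norm_num)
  generalize p % 7 = m at *
  interval_cases m
  · exact absurd h (by decide +kernel)
  · omega
  · omega
  · exact absurd h (by decide +kernel)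
  · omega
  · exact absurd h (by decide +kernel)
  · exact absurd h (by decide +kernel)

theorem jac_cases' (h : jacobiSym (p : ℤ) 7 = -1) : p % 7 = 3 ∨ p % 7 = 5 ∨ p % 7 = 6 := by
  have e : jacobiSym (p : ℤ) 7 = jacobiSym ((p % 7 : ℕ) : ℤ) 7 := by
    rw [jacobiSym.mod_left (p : ℤ) 7]
    push_cast
    rfl
  rw [e] at h
  have h7 : p % 7 < 7 := Nat.mod_lt _ (by norm_num)
  generalize p % 7 = m at *
  interval_cases m
  · exact absurd h (by decide +kernel)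
  · exact absurd h (by decide +kernel)
  · exact absurd h (by decide +kernel)
  · omega
  · exact absurd h (by decide +kernel)
  · omega
  · omega

theorem c_large (hp53 : 53 ≤ p) (h7 : p % 7 = 1 ∨ p % 7 = 2 ∨ p % 7 = 4) : I p 3 (C3 p - T81 p) := by
  obtain ⟨h, hh⟩ := exists_half' (p := p) (by omega)
  obtain ⟨n, hn⟩ : ∃ n, p = 2 * n + 1 := by
    have := hp.out.odd_of_ne_two (by omega)
    obtain ⟨n, hn⟩ := this
    exact ⟨n, hn⟩
  obtain ⟨r, hr⟩ := exists_sqrt_m7 (p := p) (by omega) h7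
  have key : ∀ m : ℕ, 0 < m → (∀ q, q.Prime → q ∣ m → q < 53) → ∃ w : ZMod (p ^ 3), (m : ZMod (p ^ 3)) * w = 1 := by
    intro m hm0 hm
    have h1 : ¬ (p : ℤ) ∣ (m : ℤ) := by
      intro h
      have h1 : p ∣ m := by exact_mod_cast h
      have := hm p hp.out h1
      omega
    obtain ⟨w, hw⟩ := inv_exists h1
    exact ⟨w, by exact_mod_cast hw⟩
  obtain ⟨i15, hi⟩ := key 15 (by norm_num) (by intro q _ hq; have := Nat.le_of_dvd (by norm_num) hq; omega)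
  obtain ⟨i255, hi255⟩ := key 255 (by norm_num) (by
    intro q hq1 hq
    have h2 : q ∣ 15 * 17 := hq
    rcases hq1.dvd_mul.mp h2 with h3 | h3 <;> have := Nat.le_of_dvd (by norm_num) h3 <;> omega)
  obtain ⟨i81, hi81⟩ := key 81 (by norm_num) (by
    intro q hq1 hq
    have h2 : q ∣ 3 ^ 4 := hq
    have := Nat.le_of_dvd (by norm_num) (hq1.dvd_of_dvd_pow h2)
    omega)
  push_cast at hi hi255 hi81
  have k13 : (2 * h) ^ 13 = 1 := by rw [hh, one_pow]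
  obtain ⟨-, -, hk⟩ := D7_more hp53 hn hh (z1 := h ^ 13 * (47 + 45 * r)) (z2 := h ^ 13 * (47 - 45 * r)) hr
    (by linear_combination (47 + 45 * r) * k13) (by linear_combination (47 - 45 * r) * k13) hi hi255 hi81
  obtain ⟨u, hu, hx⟩ := Rep.congr (Rep_C3 (by omega)) (Rep_T81 hp53 hi81) hk
  exact ⟨u, Zp_den hu, hx⟩

theorem d_large (hp53 : 53 ≤ p) (h7 : jacobiSym (p : ℤ) 7 = -1) : I p 2 (T81 p) := by
  have n81 : ¬ (p : ℤ) ∣ 81 := by
    intro h1
    have h2 : p ∣ 3 ^ 4 := by exact_mod_cast h1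
    have := Nat.le_of_dvd (by norm_num) (hp.out.dvd_of_dvd_pow h2)
    omega
  obtain ⟨i81, hi81⟩ := inv_exists n81
  push_cast at hi81
  have h1 := (Rep.nat (p := p) p).mul (Rep_T81 hp53 hi81)
  rw [inert_T2 hp53 h7 hi81] at h1
  obtain ⟨u, hu, hx⟩ := Rep.cong h1
  refine ⟨u, Zp_den hu, ?_⟩
  apply mul_left_cancel₀ (p_ne (p := p))
  rw [hx]; ring

theorem C_first (h3 : 3 < p) (h : jacobiSym (p : ℤ) 7 = 1) : I p 3 (C3 p - T81 p) := by
  have h7 := jac_cases h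
  by_cases hp53 : 53 ≤ p
  · exact c_large hp53 h7
  · have hcase := cases_c hp.out h3 (by omega) h7
    rcases hcase with rfl | rfl | rfl | rfl | rfl
    all_goals exact small_c (by norm_num) (by decide +kernel)

theorem D_first (h3 : 3 < p) (h : jacobiSym (p : ℤ) 7 = -1) : I p 2 (T81 p) := by
  by_cases hp53 : 53 ≤ p
  · exact d_large hp53 h
  · have h7 := jac_cases' h
    have hcase := cases_d hp.out h3 (by omega) h7
    rcases hcase with rfl | rfl | rfl | rfl | rfl | rfl | rfl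
    all_goals exact small_d (by norm_num) (by decide +kernel)

theorem partA' (h3 : 3 < p) {a : ℕ} (ha : 1 ≤ a) :
    I p 4 (S35 (p ^ a) / (p : ℚ) ^ a - (8 + 416 / 27 * (p : ℚ) ^ 3 * bernoulli (p - 3))) :=
  partA Pool.Agent.H196.SUN35.A2.t_A2 Pool.Agent.H166.SUN35.A4 Pool.Agent.H166.SUN35.A5 Pool.Agent.H828.SUN35.A6 h3 ha

theorem partB' (h3 : 3 < p) : I p 3 (S35 ((p - 1) / 2 + 1) - 8 * (p : ℚ) * 3 ^ (p - 1)) :=
  Pool.Agent.H404.SUN35.S_B_proof Pool.Agent.H287.SUN35.IB Pool.Agent.H286.SUN35H3.H3 Pool.Agent.H200.SUN35.h6 p h3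

theorem C_second (h3 : 3 < p) (h : jacobiSym (p : ℤ) 7 = 1) :
    I p 3 (3 * (∑ k ∈ range p, (k : ℚ) * (((2 * k).choose k : ℕ) : ℚ) ^ 3) -
      5 * (∑ k ∈ range p, (k : ℚ) * (((4 * k)! : ℚ) / (k ! : ℚ) ^ 4) / (81 : ℚ) ^ k)) := by
  have h7 := jac_cases h
  have hp7 : p ≠ 7 := by rintro rfl; omega
  have h1 := C_first h3 h
  have h2 := Pool.Agent.H284.SUN35.c21 p h3
  have h4 := partA' (p := p) h3 (a := 1) le_rfl
  rw [pow_one, pow_one] at h4
  have hB : bernoulli (p - 3) ∈ Zp p := T2H53.HB.bern_mem (p := p) (p - 3) (by omega)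
  have hc : (416 / 27 : ℚ) ∈ Zp p := m23 h3 416 0 3 (by norm_num)
  have h5 : I p 3 (S35 p - 8 * p) := by
    have e : S35 p - 8 * p = p * (S35 p / p - (8 + 416 / 27 * (p : ℚ) ^ 3 * bernoulli (p - 3))) +
        (p : ℚ) ^ 3 * (p * (416 / 27 * bernoulli (p - 3))) := by
      have := p_ne (p := p)
      field_simp
      ring
    rw [e]
    refine ((h4.mulL p_mem).mono (by norm_num)).add ⟨_, mul_mem p_mem (mul_mem hc hB), rfl⟩
  have e35 : S35 p = 35 * (∑ k ∈ range p, (k : ℚ) * (((4 * k)! : ℚ) / (k ! : ℚ) ^ 4) / (81 : ℚ) ^ k) + 8 * T81 p := by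
    unfold S35 T81 a35
    rw [mul_sum, mul_sum, ← sum_add_distrib]
    exact sum_congr rfl fun k _ => by ring
  have e21 : ∑ k ∈ range p, (21 * (k : ℚ) + 8) * (((2 * k).choose k : ℕ) : ℚ) ^ 3 =
      21 * (∑ k ∈ range p, (k : ℚ) * (((2 * k).choose k : ℕ) : ℚ) ^ 3) + 8 * C3 p := by
    unfold C3
    rw [mul_sum, mul_sum, ← sum_add_distrib]
    exact sum_congr rfl fun k _ => by ring
  rw [e35] at h5
  rw [e21] at h2
  have u7 : U p (7 : ℚ) := by
    have := ujn (p := p) (j := 7) (fun hd => hp7 ((Nat.prime_dvd_prime_iff_eq hp.out (by norm_num)).mp hd))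
    exact_mod_cast this
  apply u7.cancel
  have := (h2.sub h5).sub (h1.mulL (nm 8))
  refine icg this ?_
  ring

end

end Pool.Agent.H547.V1
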