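import Pool.Agent.H547.V1.Stm

set_option autoImplicit false

/-!
# An exact identity for `∑_{k<N} (35k+8) (4k)!/(k!⁴ 81^k)`, `3 ∤ N`
-/

namespace Pool.Agent.H547.V1

open Finset
open scoped Nat

def u1 (M m : ℕ) : ℚ := 36 * ((12 * M + 3)! : ℚ) * (M ! : ℚ) ^ 2 * ((2 * M)! : ℚ) * ((3 * M + 3 * m)! : ℚ) * ((3 * M + m)! : ℚ) /
  (27 ^ (3 * M + 1 + m) * ((3 * M)! : ℚ) ^ 4 * ((4 * M + 1)! : ℚ) * ((M + m)! : ℚ) * (m ! : ℚ) ^ 2 * ((5 * M + 1 + m)! : ℚ))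

def u2 (M m : ℕ) : ℚ := 36 * ((12 * M + 7)! : ℚ) * (M ! : ℚ) ^ 2 * ((2 * M + 1)! : ℚ) * ((3 * M + 1 + 3 * m)! : ℚ) * ((3 * M + 1 + m)! : ℚ) /
  (27 ^ (3 * M + 2 + m) * ((3 * M + 1)! : ℚ) ^ 4 * ((4 * M + 2)! : ℚ) * ((M + m)! : ℚ) * (m ! : ℚ) ^ 2 * ((5 * M + 3 + m)! : ℚ))

def u0 (M m : ℕ) : ℚ := 144 * ((12 * M + 11)! : ℚ) * ((M + 1)! : ℚ) ^ 2 * ((2 * M + 2)! : ℚ) * ((3 * M + 3 + 3 * m)! : ℚ) * ((3 * M + 2 + m)! : ℚ) /
  (27 ^ (3 * M + 3 + m) * ((3 * M + 2)! : ℚ) ^ 3 * ((3 * M + 3)! : ℚ) * ((4 * M + 4)! : ℚ) * ((M + 1 + m)! : ℚ) * (m ! : ℚ) ^ 2 * ((5 * M + 5 + m)! : ℚ))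

def G1 (M m : ℕ) : ℚ := (m : ℚ) ^ 2 * ((53 * (M : ℚ) + 22) * (3 * M + 1) + (51 * M + 21) * m) / (3 * (M : ℚ) + 1) ^ 3 *
  (36 * ((12 * M + 3)! : ℚ) * (M ! : ℚ) ^ 2 * ((2 * M)! : ℚ) * ((3 * M + 3 * m)! : ℚ) * ((3 * M + m)! : ℚ) /
  (27 ^ (3 * M + 1 + m) * ((3 * M)! : ℚ) ^ 4 * ((4 * M + 1)! : ℚ) * ((M + m)! : ℚ) * (m ! : ℚ) ^ 2 * ((5 * M + 2 + m)! : ℚ)))

def G2 (M m : ℕ) : ℚ := (m : ℚ) ^ 2 * ((53 * (M : ℚ) + 44) * (3 * M + 2) + (51 * M + 42) * m) / (3 * (M : ℚ) + 2) ^ 3 *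
  (36 * ((12 * M + 7)! : ℚ) * (M ! : ℚ) ^ 2 * ((2 * M + 1)! : ℚ) * ((3 * M + 1 + 3 * m)! : ℚ) * ((3 * M + 1 + m)! : ℚ) /
  (27 ^ (3 * M + 2 + m) * ((3 * M + 1)! : ℚ) ^ 4 * ((4 * M + 2)! : ℚ) * ((M + m)! : ℚ) * (m ! : ℚ) ^ 2 * ((5 * M + 4 + m)! : ℚ)))

def G0 (M m : ℕ) : ℚ := (m : ℚ) ^ 2 / (9 * ((M : ℚ) + 1) ^ 2) *
  (144 * ((12 * M + 11)! : ℚ) * ((M + 1)! : ℚ) ^ 2 * ((2 * M + 2)! : ℚ) * ((3 * M + 3 + 3 * m)! : ℚ) * ((3 * M + 2 + m)! : ℚ) /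
  (27 ^ (3 * M + 3 + m) * ((3 * M + 2)! : ℚ) ^ 3 * ((3 * M + 3)! : ℚ) * ((4 * M + 4)! : ℚ) * ((M + 1 + m)! : ℚ) * (m ! : ℚ) ^ 2 * ((5 * M + 5 + m)! : ℚ)))

theorem fs (n : ℕ) : ((n + 1)! : ℚ) = ((n : ℚ) + 1) * (n ! : ℚ) := by rw [Nat.factorial_succ]; push_cast; ring

theorem step1 (M m : ℕ) : u2 M m - u1 M m = G1 M (m + 1) - G1 M m := by
  unfold u2 u1 G1
  have e1 : ((12 * M + 7)! : ℚ) = (12 * M + 7) * (12 * M + 6) * (12 * M + 5) * (12 * M + 4) * ((12 * M + 3)! : ℚ) := by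
    rw [show 12 * M + 7 = 12 * M + 3 + 1 + 1 + 1 + 1 by ring, fs, fs, fs, fs]; push_cast; ring
  have e2 : ((2 * M + 1)! : ℚ) = (2 * M + 1) * ((2 * M)! : ℚ) := by rw [fs]; push_cast; ring
  have e3 : ((3 * M + 1 + 3 * m)! : ℚ) = (3 * M + 3 * m + 1) * ((3 * M + 3 * m)! : ℚ) := by
    rw [show 3 * M + 1 + 3 * m = 3 * M + 3 * m + 1 by ring, fs]; push_cast; ring
  have e4 : ((3 * M + 1 + m)! : ℚ) = (3 * M + m + 1) * ((3 * M + m)! : ℚ) := by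
    rw [show 3 * M + 1 + m = 3 * M + m + 1 by ring, fs]; push_cast; ring
  have e5 : ((3 * M + 1)! : ℚ) = (3 * M + 1) * ((3 * M)! : ℚ) := by rw [fs]; push_cast; ring
  have e6 : ((4 * M + 2)! : ℚ) = (4 * M + 2) * ((4 * M + 1)! : ℚ) := by rw [show 4 * M + 2 = 4 * M + 1 + 1 by ring, fs]; push_cast; ring
  have e7 : ((5 * M + 3 + m)! : ℚ) = (5 * M + m + 3) * (5 * M + m + 2) * ((5 * M + 1 + m)! : ℚ) := by
    rw [show 5 * M + 3 + m = 5 * M + 1 + m + 1 + 1 by ring, fs, fs]; push_cast; ring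
  have e8 : ((5 * M + 2 + (m + 1))! : ℚ) = (5 * M + m + 3) * (5 * M + m + 2) * ((5 * M + 1 + m)! : ℚ) := by
    rw [show 5 * M + 2 + (m + 1) = 5 * M + 1 + m + 1 + 1 by ring, fs, fs]; push_cast; ring
  have e9 : ((5 * M + 2 + m)! : ℚ) = (5 * M + m + 2) * ((5 * M + 1 + m)! : ℚ) := by
    rw [show 5 * M + 2 + m = 5 * M + 1 + m + 1 by ring, fs]; push_cast; ring
  have e10 : ((3 * M + 3 * (m + 1))! : ℚ) = (3 * M + 3 * m + 3) * (3 * M + 3 * m + 2) * (3 * M + 3 * m + 1) * ((3 * M + 3 * m)! : ℚ) := by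
    rw [show 3 * M + 3 * (m + 1) = 3 * M + 3 * m + 1 + 1 + 1 by ring, fs, fs, fs]; push_cast; ring
  have e11 : ((3 * M + (m + 1))! : ℚ) = (3 * M + m + 1) * ((3 * M + m)! : ℚ) := by
    rw [show 3 * M + (m + 1) = 3 * M + m + 1 by ring, fs]; push_cast; ring
  have e12 : ((M + (m + 1))! : ℚ) = (M + m + 1) * ((M + m)! : ℚ) := by
    rw [show M + (m + 1) = M + m + 1 by ring, fs]; push_cast; ring
  have e13 : ((m + 1)! : ℚ) = (m + 1) * (m ! : ℚ) := fs m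
  have p1 : (27 : ℚ) ^ (3 * M + 2 + m) = 27 * 27 ^ (3 * M + 1 + m) := by rw [← pow_succ']; congr 1; ring
  have p2 : (27 : ℚ) ^ (3 * M + 1 + (m + 1)) = 27 * 27 ^ (3 * M + 1 + m) := by rw [← pow_succ']; congr 1
  rw [e1, e2, e3, e4, e5, e6, e7, e8, e9, e10, e11, e12, e13, p1, p2]
  have n0 : ((3 * M)! : ℚ) ≠ 0 := by positivity
  have n1 : ((4 * M + 1)! : ℚ) ≠ 0 := by positivity
  have n2 : ((M + m)! : ℚ) ≠ 0 := by positivity
  have n3 : ((m)! : ℚ) ≠ 0 := by positivity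
  have n4 : ((5 * M + 1 + m)! : ℚ) ≠ 0 := by positivity
  have n5 : (27 : ℚ) ^ (3 * M + 1 + m) ≠ 0 := by positivity
  generalize ((3 * M)! : ℚ) = A0 at *
  generalize ((4 * M + 1)! : ℚ) = A1 at *
  generalize ((M + m)! : ℚ) = A2 at *
  generalize ((m)! : ℚ) = A3 at *
  generalize ((5 * M + 1 + m)! : ℚ) = A4 at *
  generalize (27 : ℚ) ^ (3 * M + 1 + m) = A5 at *
  generalize ((12 * M + 3)! : ℚ) = A6 at *
  generalize ((M)! : ℚ) = A7 at *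
  generalize ((2 * M)! : ℚ) = A8 at *
  generalize ((3 * M + 3 * m)! : ℚ) = A9 at *
  generalize ((3 * M + m)! : ℚ) = B0 at *
  have q1 : (3 * (M : ℚ) + 1) ≠ 0 := by positivity
  have q2 : (4 * (M : ℚ) + 2) ≠ 0 := by positivity
  have q3 : (5 * (M : ℚ) + m + 3) ≠ 0 := by positivity
  have q4 : (5 * (M : ℚ) + m + 2) ≠ 0 := by positivity
  have q5 : ((M : ℚ) + m + 1) ≠ 0 := by positivity
  have q6 : ((m : ℚ) + 1) ≠ 0 := by positivity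
  push_cast
  field_simp
  ring

theorem step2 (M m : ℕ) : u0 M m - u2 M m = G2 M (m + 1) - G2 M m := by
  unfold u2 u0 G2
  have e1 : ((12 * M + 11)! : ℚ) = (12 * M + 11) * (12 * M + 10) * (12 * M + 9) * (12 * M + 8) * ((12 * M + 7)! : ℚ) := by
    rw [show 12 * M + 11 = 12 * M + 7 + 1 + 1 + 1 + 1 by ring, fs, fs, fs, fs]; push_cast; ring
  have e2 : ((2 * M + 2)! : ℚ) = (2 * M + 2) * ((2 * M + 1)! : ℚ) := by rw [show 2 * M + 2 = 2 * M + 1 + 1 by ring, fs]; push_cast; ring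
  have e3 : ((3 * M + 3 + 3 * m)! : ℚ) = (3 * M + 3 * m + 3) * (3 * M + 3 * m + 2) * ((3 * M + 1 + 3 * m)! : ℚ) := by
    rw [show 3 * M + 3 + 3 * m = 3 * M + 1 + 3 * m + 1 + 1 by ring, fs, fs]; push_cast; ring
  have e4 : ((3 * M + 2 + m)! : ℚ) = (3 * M + m + 2) * ((3 * M + 1 + m)! : ℚ) := by
    rw [show 3 * M + 2 + m = 3 * M + 1 + m + 1 by ring, fs]; push_cast; ring
  have e5 : ((3 * M + 2)! : ℚ) = (3 * M + 2) * ((3 * M + 1)! : ℚ) := by rw [show 3 * M + 2 = 3 * M + 1 + 1 by ring, fs]; push_cast; ring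
  have e5' : ((3 * M + 3)! : ℚ) = (3 * M + 3) * (3 * M + 2) * ((3 * M + 1)! : ℚ) := by
    rw [show 3 * M + 3 = 3 * M + 1 + 1 + 1 by ring, fs, fs]; push_cast; ring
  have e6 : ((4 * M + 4)! : ℚ) = (4 * M + 4) * (4 * M + 3) * ((4 * M + 2)! : ℚ) := by
    rw [show 4 * M + 4 = 4 * M + 2 + 1 + 1 by ring, fs, fs]; push_cast; ring
  have e7 : ((5 * M + 5 + m)! : ℚ) = (5 * M + m + 5) * (5 * M + m + 4) * ((5 * M + 3 + m)! : ℚ) := by
    rw [show 5 * M + 5 + m = 5 * M + 3 + m + 1 + 1 by ring, fs, fs]; push_cast; ring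
  have e8 : ((5 * M + 4 + (m + 1))! : ℚ) = (5 * M + m + 5) * (5 * M + m + 4) * ((5 * M + 3 + m)! : ℚ) := by
    rw [show 5 * M + 4 + (m + 1) = 5 * M + 3 + m + 1 + 1 by ring, fs, fs]; push_cast; ring
  have e9 : ((5 * M + 4 + m)! : ℚ) = (5 * M + m + 4) * ((5 * M + 3 + m)! : ℚ) := by
    rw [show 5 * M + 4 + m = 5 * M + 3 + m + 1 by ring, fs]; push_cast; ring
  have e10 : ((3 * M + 1 + 3 * (m + 1))! : ℚ) = (3 * M + 3 * m + 4) * (3 * M + 3 * m + 3) * (3 * M + 3 * m + 2) * ((3 * M + 1 + 3 * m)! : ℚ) := by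
    rw [show 3 * M + 1 + 3 * (m + 1) = 3 * M + 1 + 3 * m + 1 + 1 + 1 by ring, fs, fs, fs]; push_cast; ring
  have e11 : ((3 * M + 1 + (m + 1))! : ℚ) = (3 * M + m + 2) * ((3 * M + 1 + m)! : ℚ) := by
    rw [show 3 * M + 1 + (m + 1) = 3 * M + 1 + m + 1 by ring, fs]; push_cast; ring
  have e12 : ((M + (m + 1))! : ℚ) = (M + m + 1) * ((M + m)! : ℚ) := by
    rw [show M + (m + 1) = M + m + 1 by ring, fs]; push_cast; ring
  have e12' : ((M + 1 + m)! : ℚ) = (M + m + 1) * ((M + m)! : ℚ) := by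
    rw [show M + 1 + m = M + m + 1 by ring, fs]; push_cast; ring
  have e13 : ((m + 1)! : ℚ) = (m + 1) * (m ! : ℚ) := fs m
  have e14 : ((M + 1)! : ℚ) = (M + 1) * (M ! : ℚ) := fs M
  have p1 : (27 : ℚ) ^ (3 * M + 3 + m) = 27 * 27 ^ (3 * M + 2 + m) := by rw [← pow_succ']; congr 1; ring
  have p2 : (27 : ℚ) ^ (3 * M + 2 + (m + 1)) = 27 * 27 ^ (3 * M + 2 + m) := by rw [← pow_succ']; congr 1
  rw [e1, e2, e3, e4, e5, e5', e6, e7, e8, e9, e10, e11, e12, e12', e13, e14, p1, p2]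
  have n0 : ((3 * M + 1)! : ℚ) ≠ 0 := by positivity
  have n1 : ((4 * M + 2)! : ℚ) ≠ 0 := by positivity
  have n2 : ((M + m)! : ℚ) ≠ 0 := by positivity
  have n3 : ((m)! : ℚ) ≠ 0 := by positivity
  have n4 : ((5 * M + 3 + m)! : ℚ) ≠ 0 := by positivity
  have n5 : (27 : ℚ) ^ (3 * M + 2 + m) ≠ 0 := by positivity
  generalize ((3 * M + 1)! : ℚ) = A0 at *
  generalize ((4 * M + 2)! : ℚ) = A1 at *
  generalize ((M + m)! : ℚ) = A2 at *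
  generalize ((m)! : ℚ) = A3 at *
  generalize ((5 * M + 3 + m)! : ℚ) = A4 at *
  generalize (27 : ℚ) ^ (3 * M + 2 + m) = A5 at *
  generalize ((12 * M + 7)! : ℚ) = A6 at *
  generalize ((M)! : ℚ) = A7 at *
  generalize ((2 * M + 1)! : ℚ) = A8 at *
  generalize ((3 * M + 1 + 3 * m)! : ℚ) = A9 at *
  generalize ((3 * M + 1 + m)! : ℚ) = B0 at *
  have q1 : (3 * (M : ℚ) + 2) ≠ 0 := by positivity
  have q2 : (4 * (M : ℚ) + 3) ≠ 0 := by positivity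
  have q3 : (5 * (M : ℚ) + m + 5) ≠ 0 := by positivity
  have q4 : (5 * (M : ℚ) + m + 4) ≠ 0 := by positivity
  have q5 : ((M : ℚ) + m + 1) ≠ 0 := by positivity
  have q6 : ((m : ℚ) + 1) ≠ 0 := by positivity
  have q7 : (3 * (M : ℚ) + 3) ≠ 0 := by positivity
  have q8 : (4 * (M : ℚ) + 4) ≠ 0 := by positivity
  have q9 : ((M : ℚ) + 1) ≠ 0 := by positivity
  push_cast
  field_simp
  ring

theorem step0 (M m : ℕ) : u1 (M + 1) m - u0 M m = G0 M (m + 1) - G0 M m := by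
  unfold u1 u0 G0
  have e1 : ((12 * (M + 1) + 3)! : ℚ) = (12 * M + 15) * (12 * M + 14) * (12 * M + 13) * (12 * M + 12) * ((12 * M + 11)! : ℚ) := by
    rw [show 12 * (M + 1) + 3 = 12 * M + 11 + 1 + 1 + 1 + 1 by ring, fs, fs, fs, fs]; push_cast; ring
  have e2 : ((2 * (M + 1))! : ℚ) = ((2 * M + 2)! : ℚ) := by rw [show 2 * (M + 1) = 2 * M + 2 by ring]
  have e3 : ((3 * (M + 1) + 3 * m)! : ℚ) = ((3 * M + 3 + 3 * m)! : ℚ) := by
    rw [show 3 * (M + 1) + 3 * m = 3 * M + 3 + 3 * m by ring]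
  have e4 : ((3 * (M + 1) + m)! : ℚ) = (3 * M + m + 3) * ((3 * M + 2 + m)! : ℚ) := by
    rw [show 3 * (M + 1) + m = 3 * M + 2 + m + 1 by ring, fs]; push_cast; ring
  have e5 : ((3 * (M + 1))! : ℚ) = (3 * M + 3) * ((3 * M + 2)! : ℚ) := by rw [show 3 * (M + 1) = 3 * M + 2 + 1 by ring, fs]; push_cast; ring
  have e5' : ((3 * M + 3)! : ℚ) = (3 * M + 3) * ((3 * M + 2)! : ℚ) := by
    rw [show 3 * M + 3 = 3 * M + 2 + 1 by ring, fs]; push_cast; ring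
  have e6 : ((4 * (M + 1) + 1)! : ℚ) = (4 * M + 5) * ((4 * M + 4)! : ℚ) := by
    rw [show 4 * (M + 1) + 1 = 4 * M + 4 + 1 by ring, fs]; push_cast; ring
  have e7 : ((5 * (M + 1) + 1 + m)! : ℚ) = (5 * M + m + 6) * ((5 * M + 5 + m)! : ℚ) := by
    rw [show 5 * (M + 1) + 1 + m = 5 * M + 5 + m + 1 by ring, fs]; push_cast; ring
  have e8 : ((5 * M + 5 + (m + 1))! : ℚ) = (5 * M + m + 6) * ((5 * M + 5 + m)! : ℚ) := by
    rw [show 5 * M + 5 + (m + 1) = 5 * M + 5 + m + 1 by ring, fs]; push_cast; ring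
  have e10 : ((3 * M + 3 + 3 * (m + 1))! : ℚ) = (3 * M + 3 * m + 6) * (3 * M + 3 * m + 5) * (3 * M + 3 * m + 4) * ((3 * M + 3 + 3 * m)! : ℚ) := by
    rw [show 3 * M + 3 + 3 * (m + 1) = 3 * M + 3 + 3 * m + 1 + 1 + 1 by ring, fs, fs, fs]; push_cast; ring
  have e11 : ((3 * M + 2 + (m + 1))! : ℚ) = (3 * M + m + 3) * ((3 * M + 2 + m)! : ℚ) := by
    rw [show 3 * M + 2 + (m + 1) = 3 * M + 2 + m + 1 by ring, fs]; push_cast; ring
  have e12 : ((M + 1 + (m + 1))! : ℚ) = (M + m + 2) * ((M + 1 + m)! : ℚ) := by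
    rw [show M + 1 + (m + 1) = M + 1 + m + 1 by ring, fs]; push_cast; ring
  have e13 : ((m + 1)! : ℚ) = (m + 1) * (m ! : ℚ) := fs m
  have p1 : (27 : ℚ) ^ (3 * (M + 1) + 1 + m) = 27 * 27 ^ (3 * M + 3 + m) := by rw [← pow_succ']; congr 1; ring
  have p2 : (27 : ℚ) ^ (3 * M + 3 + (m + 1)) = 27 * 27 ^ (3 * M + 3 + m) := by rw [← pow_succ']; congr 1
  rw [e1, e2, e3, e4, e5, e5', e6, e7, e8, e10, e11, e12, e13, p1, p2]
  have n0 : ((3 * M + 2)! : ℚ) ≠ 0 := by positivity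
  have n1 : ((4 * M + 4)! : ℚ) ≠ 0 := by positivity
  have n2 : ((M + 1 + m)! : ℚ) ≠ 0 := by positivity
  have n3 : ((m)! : ℚ) ≠ 0 := by positivity
  have n4 : ((5 * M + 5 + m)! : ℚ) ≠ 0 := by positivity
  have n5 : (27 : ℚ) ^ (3 * M + 3 + m) ≠ 0 := by positivity
  generalize ((3 * M + 2)! : ℚ) = A0 at *
  generalize ((4 * M + 4)! : ℚ) = A1 at *
  generalize ((M + 1 + m)! : ℚ) = A2 at *
  generalize ((m)! : ℚ) = A3 at *
  generalize ((5 * M + 5 + m)! : ℚ) = A4 at *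
  generalize (27 : ℚ) ^ (3 * M + 3 + m) = A5 at *
  generalize ((12 * M + 11)! : ℚ) = A6 at *
  generalize ((M + 1)! : ℚ) = A7 at *
  generalize ((2 * M + 2)! : ℚ) = A8 at *
  generalize ((3 * M + 3 + 3 * m)! : ℚ) = A9 at *
  generalize ((3 * M + 2 + m)! : ℚ) = B0 at *
  have q2 : (4 * (M : ℚ) + 5) ≠ 0 := by positivity
  have q3 : (5 * (M : ℚ) + m + 6) ≠ 0 := by positivity
  have q5 : ((M : ℚ) + m + 2) ≠ 0 := by positivity
  have q6 : ((m : ℚ) + 1) ≠ 0 := by positivity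
  have q7 : (3 * (M : ℚ) + 3) ≠ 0 := by positivity
  have q9 : ((M : ℚ) + 1) ≠ 0 := by positivity
  push_cast
  field_simp
  ring

theorem bnd1 (M : ℕ) : G1 M (M + 1) - G1 M 0 = a35 (3 * M + 1) := by
  unfold G1 a35
  have e1 : ((4 * (3 * M + 1))! : ℚ) = (12 * M + 4) * ((12 * M + 3)! : ℚ) := by
    rw [show 4 * (3 * M + 1) = 12 * M + 3 + 1 by ring, fs]; push_cast; ring
  have e2 : ((3 * M + 1)! : ℚ) = (3 * M + 1) * ((3 * M)! : ℚ) := by rw [fs]; push_cast; ring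
  have e3 : ((3 * M + 3 * (M + 1))! : ℚ) = ((6 * M + 3)! : ℚ) := by congr 2; ring
  have e4 : ((3 * M + (M + 1))! : ℚ) = ((4 * M + 1)! : ℚ) := by congr 2; ring
  have e5 : ((M + (M + 1))! : ℚ) = (2 * M + 1) * ((2 * M)! : ℚ) := by
    rw [show M + (M + 1) = 2 * M + 1 by ring, fs]; push_cast; ring
  have e6 : ((5 * M + 2 + (M + 1))! : ℚ) = ((6 * M + 3)! : ℚ) := by congr 2; ring
  have e7 : ((M + 1)! : ℚ) = (M + 1) * (M ! : ℚ) := fs M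
  have p1 : (27 : ℚ) ^ (3 * M + 1 + (M + 1)) = 729 * ((3 : ℚ) ^ M) ^ 12 := by
    rw [show (27 : ℚ) = 3 ^ 3 by norm_num, ← pow_mul, ← pow_mul, show (729 : ℚ) = 3 ^ 6 by norm_num, ← pow_add]; congr 1; ring
  have p2 : (81 : ℚ) ^ (3 * M + 1) = 81 * ((3 : ℚ) ^ M) ^ 12 := by
    rw [show (81 : ℚ) = 3 ^ 4 by norm_num, ← pow_mul, ← pow_mul, ← pow_add]; congr 1; ring
  rw [e1, e2, e3, e4, e5, e6, e7, p1, p2]
  have n0 : ((3 * M)! : ℚ) ≠ 0 := by positivity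
  have n1 : ((4 * M + 1)! : ℚ) ≠ 0 := by positivity
  have n2 : ((6 * M + 3)! : ℚ) ≠ 0 := by positivity
  have n3 : ((M)! : ℚ) ≠ 0 := by positivity
  have n4 : ((2 * M)! : ℚ) ≠ 0 := by positivity
  have n5 : (3 : ℚ) ^ M ≠ 0 := by positivity
  have q1 : (3 * (M : ℚ) + 1) ≠ 0 := by positivity
  have q2 : (2 * (M : ℚ) + 1) ≠ 0 := by positivity
  have q3 : ((M : ℚ) + 1) ≠ 0 := by positivity
  push_cast
  field_simp
  ring

theorem bnd2 (M : ℕ) : G2 M (M + 1) - G2 M 0 = a35 (3 * M + 2) := by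
  unfold G2 a35
  have e1 : ((4 * (3 * M + 2))! : ℚ) = (12 * M + 8) * ((12 * M + 7)! : ℚ) := by
    rw [show 4 * (3 * M + 2) = 12 * M + 7 + 1 by ring, fs]; push_cast; ring
  have e2 : ((3 * M + 2)! : ℚ) = (3 * M + 2) * ((3 * M + 1)! : ℚ) := by rw [show 3 * M + 2 = 3 * M + 1 + 1 by ring, fs]; push_cast; ring
  have e3 : ((3 * M + 1 + 3 * (M + 1))! : ℚ) = (6 * M + 4) * ((6 * M + 3)! : ℚ) := by
    rw [show 3 * M + 1 + 3 * (M + 1) = 6 * M + 3 + 1 by ring, fs]; push_cast; ring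
  have e4 : ((3 * M + 1 + (M + 1))! : ℚ) = ((4 * M + 2)! : ℚ) := by congr 2; ring
  have e5 : ((M + (M + 1))! : ℚ) = ((2 * M + 1)! : ℚ) := by congr 2; ring
  have e6 : ((5 * M + 4 + (M + 1))! : ℚ) = (6 * M + 5) * (6 * M + 4) * ((6 * M + 3)! : ℚ) := by
    rw [show 5 * M + 4 + (M + 1) = 6 * M + 3 + 1 + 1 by ring, fs, fs]; push_cast; ring
  have e7 : ((M + 1)! : ℚ) = (M + 1) * (M ! : ℚ) := fs M
  have p1 : (27 : ℚ) ^ (3 * M + 2 + (M + 1)) = 19683 * ((3 : ℚ) ^ M) ^ 12 := by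
    rw [show (27 : ℚ) = 3 ^ 3 by norm_num, ← pow_mul, ← pow_mul, show (19683 : ℚ) = 3 ^ 9 by norm_num, ← pow_add]; congr 1; ring
  have p2 : (81 : ℚ) ^ (3 * M + 2) = 6561 * ((3 : ℚ) ^ M) ^ 12 := by
    rw [show (81 : ℚ) = 3 ^ 4 by norm_num, ← pow_mul, ← pow_mul, show (6561 : ℚ) = 3 ^ 8 by norm_num, ← pow_add]; congr 1; ring
  rw [e1, e2, e3, e4, e5, e6, e7, p1, p2]
  have n0 : ((3 * M + 1)! : ℚ) ≠ 0 := by positivity
  have n1 : ((4 * M + 2)! : ℚ) ≠ 0 := by positivity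
  have n2 : ((6 * M + 3)! : ℚ) ≠ 0 := by positivity
  have n3 : ((M)! : ℚ) ≠ 0 := by positivity
  have n4 : ((2 * M + 1)! : ℚ) ≠ 0 := by positivity
  have n5 : (3 : ℚ) ^ M ≠ 0 := by positivity
  have q1 : (3 * (M : ℚ) + 2) ≠ 0 := by positivity
  have q2 : (6 * (M : ℚ) + 4) ≠ 0 := by positivity
  have q2' : (6 * (M : ℚ) + 5) ≠ 0 := by positivity
  have q3 : ((M : ℚ) + 1) ≠ 0 := by positivity
  push_cast
  field_simp
  ring

theorem bnd0 (M : ℕ) : u1 (M + 1) (M + 1) + (G0 M (M + 1) - G0 M 0) = a35 (3 * M + 3) := by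
  unfold G0 u1 a35
  have e0 : ((12 * (M + 1) + 3)! : ℚ) = (12 * M + 15) * (12 * M + 14) * (12 * M + 13) * (12 * M + 12) * ((12 * M + 11)! : ℚ) := by
    rw [show 12 * (M + 1) + 3 = 12 * M + 11 + 1 + 1 + 1 + 1 by ring, fs, fs, fs, fs]; push_cast; ring
  have e1 : ((4 * (3 * M + 3))! : ℚ) = (12 * M + 12) * ((12 * M + 11)! : ℚ) := by
    rw [show 4 * (3 * M + 3) = 12 * M + 11 + 1 by ring, fs]; push_cast; ring
  have e2 : ((3 * M + 3)! : ℚ) = (3 * M + 3) * ((3 * M + 2)! : ℚ) := by rw [show 3 * M + 3 = 3 * M + 2 + 1 by ring, fs]; push_cast; ring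
  have e2' : ((3 * (M + 1))! : ℚ) = (3 * M + 3) * ((3 * M + 2)! : ℚ) := by rw [show 3 * (M + 1) = 3 * M + 2 + 1 by ring, fs]; push_cast; ring
  have e3 : ((3 * M + 3 + 3 * (M + 1))! : ℚ) = ((6 * M + 6)! : ℚ) := by congr 2; ring
  have e3' : ((3 * (M + 1) + 3 * (M + 1))! : ℚ) = ((6 * M + 6)! : ℚ) := by congr 2; ring
  have e4 : ((3 * M + 2 + (M + 1))! : ℚ) = ((4 * M + 3)! : ℚ) := by congr 2; ring
  have e4' : ((3 * (M + 1) + (M + 1))! : ℚ) = (4 * M + 4) * ((4 * M + 3)! : ℚ) := by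
    rw [show 3 * (M + 1) + (M + 1) = 4 * M + 3 + 1 by ring, fs]; push_cast; ring
  have e5 : ((M + 1 + (M + 1))! : ℚ) = ((2 * M + 2)! : ℚ) := by congr 2; ring
  have e5' : ((2 * (M + 1))! : ℚ) = ((2 * M + 2)! : ℚ) := by congr 2
  have e6 : ((5 * M + 5 + (M + 1))! : ℚ) = ((6 * M + 6)! : ℚ) := by congr 2; ring
  have e6' : ((5 * (M + 1) + 1 + (M + 1))! : ℚ) = (6 * M + 7) * ((6 * M + 6)! : ℚ) := by
    rw [show 5 * (M + 1) + 1 + (M + 1) = 6 * M + 6 + 1 by ring, fs]; push_cast; ring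
  have e8 : ((4 * M + 4)! : ℚ) = (4 * M + 4) * ((4 * M + 3)! : ℚ) := by rw [show 4 * M + 4 = 4 * M + 3 + 1 by ring, fs]; push_cast; ring
  have e8' : ((4 * (M + 1) + 1)! : ℚ) = (4 * M + 5) * (4 * M + 4) * ((4 * M + 3)! : ℚ) := by
    rw [show 4 * (M + 1) + 1 = 4 * M + 3 + 1 + 1 by ring, fs, fs]; push_cast; ring
  have p1 : (27 : ℚ) ^ (3 * M + 3 + (M + 1)) = 531441 * ((3 : ℚ) ^ M) ^ 12 := by
    rw [show (27 : ℚ) = 3 ^ 3 by norm_num, ← pow_mul, ← pow_mul, show (531441 : ℚ) = 3 ^ 12 by norm_num, ← pow_add]; congr 1; ring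
  have p1' : (27 : ℚ) ^ (3 * (M + 1) + 1 + (M + 1)) = 14348907 * ((3 : ℚ) ^ M) ^ 12 := by
    rw [show (27 : ℚ) = 3 ^ 3 by norm_num, ← pow_mul, ← pow_mul, show (14348907 : ℚ) = 3 ^ 15 by norm_num, ← pow_add]; congr 1; ring
  have p2 : (81 : ℚ) ^ (3 * M + 3) = 531441 * ((3 : ℚ) ^ M) ^ 12 := by
    rw [show (81 : ℚ) = 3 ^ 4 by norm_num, ← pow_mul, ← pow_mul, show (531441 : ℚ) = 3 ^ 12 by norm_num, ← pow_add]; congr 1; ring
  rw [e0, e1, e2, e2', e3, e3', e4, e4', e5, e5', e6, e6', e8, e8', p1, p1', p2]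
  have n0 : ((3 * M + 2)! : ℚ) ≠ 0 := by positivity
  have n1 : ((4 * M + 3)! : ℚ) ≠ 0 := by positivity
  have n2 : ((6 * M + 6)! : ℚ) ≠ 0 := by positivity
  have n3 : ((M + 1)! : ℚ) ≠ 0 := by positivity
  have n4 : ((2 * M + 2)! : ℚ) ≠ 0 := by positivity
  have n5 : (3 : ℚ) ^ M ≠ 0 := by positivity
  have q1 : (3 * (M : ℚ) + 3) ≠ 0 := by positivity
  have q2 : (6 * (M : ℚ) + 7) ≠ 0 := by positivity
  have q3 : ((M : ℚ) + 1) ≠ 0 := by positivity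
  have q4 : (4 * (M : ℚ) + 4) ≠ 0 := by positivity
  have q5 : (4 * (M : ℚ) + 5) ≠ 0 := by positivity
  push_cast
  field_simp
  ring

theorem sum_class (M : ℕ) : S35 (3 * M + 1) = ∑ m ∈ range (M + 1), u1 M m ∧ S35 (3 * M + 2) = ∑ m ∈ range (M + 1), u2 M m := by
  have k1 : ∀ M, S35 (3 * M + 1) = ∑ m ∈ range (M + 1), u1 M m → S35 (3 * M + 2) = ∑ m ∈ range (M + 1), u2 M m := by
    intro M h
    have h1 : ∑ m ∈ range (M + 1), u2 M m - ∑ m ∈ range (M + 1), u1 M m = a35 (3 * M + 1) := by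
      rw [← sum_sub_distrib, sum_congr rfl fun m _ => step1 M m, sum_range_sub, bnd1]
    have h2 : S35 (3 * M + 2) = S35 (3 * M + 1) + a35 (3 * M + 1) := by unfold S35; rw [sum_range_succ]
    rw [h2, h]; linear_combination -h1
  have k2 : ∀ M, S35 (3 * M + 2) = ∑ m ∈ range (M + 1), u2 M m → S35 (3 * M + 3) = ∑ m ∈ range (M + 1), u0 M m := by
    intro M h
    have h1 : ∑ m ∈ range (M + 1), u0 M m - ∑ m ∈ range (M + 1), u2 M m = a35 (3 * M + 2) := by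
      rw [← sum_sub_distrib, sum_congr rfl fun m _ => step2 M m, sum_range_sub, bnd2]
    have h2 : S35 (3 * M + 3) = S35 (3 * M + 2) + a35 (3 * M + 2) := by unfold S35; rw [sum_range_succ]
    rw [h2, h]; linear_combination -h1
  have k3 : ∀ M, S35 (3 * M + 3) = ∑ m ∈ range (M + 1), u0 M m → S35 (3 * (M + 1) + 1) = ∑ m ∈ range (M + 1 + 1), u1 (M + 1) m := by
    intro M h
    have h1 : ∑ m ∈ range (M + 1), u1 (M + 1) m - ∑ m ∈ range (M + 1), u0 M m = G0 M (M + 1) - G0 M 0 := by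
      rw [← sum_sub_distrib, sum_congr rfl fun m _ => step0 M m, sum_range_sub]
    have h2 : S35 (3 * (M + 1) + 1) = S35 (3 * M + 3) + a35 (3 * M + 3) := by
      unfold S35; rw [show 3 * (M + 1) + 1 = 3 * M + 3 + 1 by ring, sum_range_succ]
    rw [h2, h, sum_range_succ (fun m => u1 (M + 1) m) (M + 1), ← bnd0 M]; linear_combination -h1
  have k : S35 (3 * M + 1) = ∑ m ∈ range (M + 1), u1 M m := by
    induction M with
    | zero =>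
      unfold S35 a35 u1
      norm_num [Nat.factorial]
    | succ M ih => exact k3 M (k2 M (k1 M ih))
  exact ⟨k, k1 M k⟩

theorem tt_one (N : ℕ) : tt N 1 = (N : ℚ) ^ 2 / 3 * (((N % 3 : ℕ) : ℚ) + N) / (((N % 3 : ℕ) : ℚ) + 5 * N) := by
  have h1 : (range (3 * 1)).filter (fun j => j % 3 = N % 3) = {N % 3} := by
    ext j; simp only [mem_filter, mem_range, mem_singleton]; omega
  unfold tt
  rw [h1, prod_singleton]
  simp
  ring

theorem tt_succ (N m : ℕ) (hN0 : 0 < N) (hm : 0 < m) :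
    tt N (m + 1) * (((m : ℚ) + 1) ^ 2 * (3 * m + ((N % 3 : ℕ) : ℚ) + 5 * N)) =
      tt N m * ((m + (N : ℚ) / 3) * (m + N) * (3 * m + ((N % 3 : ℕ) : ℚ) + N)) := by
  obtain ⟨k, rfl⟩ : ∃ k, m = k + 1 := ⟨m - 1, by omega⟩
  have h1 : (range (3 * (k + 1 + 1))).filter (fun j => j % 3 = N % 3) =
      insert (3 * (k + 1) + N % 3) ((range (3 * (k + 1))).filter (fun j => j % 3 = N % 3)) := by
    ext j; simp only [mem_filter, mem_range, mem_insert]; omega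
  have h2 : 3 * (k + 1) + N % 3 ∉ (range (3 * (k + 1))).filter (fun j => j % 3 = N % 3) := by
    simp only [mem_filter, mem_range]; omega
  unfold tt
  rw [h1, prod_insert h2, show k + 1 + 1 - 1 = k + 1 by omega, show k + 1 - 1 = k by omega, prod_range_succ]
  have q1 : (3 * ((k : ℚ) + 1) + ((N % 3 : ℕ) : ℚ) + 5 * N) ≠ 0 := by positivity
  have q2 : ((k : ℚ) + 1) ≠ 0 := by positivity
  have q3 : ((k : ℚ) + 1 + 1) ≠ 0 := by positivity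
  push_cast
  field_simp

theorem u1_zero (M : ℕ) : u1 M 0 = KK (3 * M + 1) := by
  unfold u1 KK
  rw [show (3 * M + 1) / 3 = M by omega, show 2 * (3 * M + 1) / 3 = 2 * M by omega, show 4 * (3 * M + 1) / 3 = 4 * M + 1 by omega,
    show 5 * (3 * M + 1) / 3 = 5 * M + 1 by omega, show 4 * (3 * M + 1) = 12 * M + 3 + 1 by ring, fs (12 * M + 3), fs (3 * M)]
  simp only [Nat.mul_zero, Nat.add_zero, Nat.factorial_zero]
  push_cast
  have n0 : ((3 * M)! : ℚ) ≠ 0 := by positivity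
  have n1 : ((4 * M + 1)! : ℚ) ≠ 0 := by positivity
  have n2 : ((5 * M + 1)! : ℚ) ≠ 0 := by positivity
  have n3 : ((M)! : ℚ) ≠ 0 := by positivity
  have q1 : (3 * (M : ℚ) + 1) ≠ 0 := by positivity
  field_simp
  ring

theorem u2_zero (M : ℕ) : u2 M 0 = KK (3 * M + 2) := by
  unfold u2 KK
  rw [show (3 * M + 2) / 3 = M by omega, show 2 * (3 * M + 2) / 3 = 2 * M + 1 by omega, show 4 * (3 * M + 2) / 3 = 4 * M + 2 by omega,
    show 5 * (3 * M + 2) / 3 = 5 * M + 3 by omega, show 4 * (3 * M + 2) = 12 * M + 7 + 1 by ring, fs (12 * M + 7),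
    show ((3 * M + 2)! : ℚ) = ((3 * M + 1 : ℕ) + 1) * ((3 * M + 1)! : ℚ) by rw [← fs]]
  simp only [Nat.mul_zero, Nat.add_zero, Nat.factorial_zero]
  push_cast
  have n0 : ((3 * M + 1)! : ℚ) ≠ 0 := by positivity
  have n1 : ((4 * M + 2)! : ℚ) ≠ 0 := by positivity
  have n2 : ((5 * M + 3)! : ℚ) ≠ 0 := by positivity
  have n3 : ((M)! : ℚ) ≠ 0 := by positivity
  have q1 : (3 * (M : ℚ) + 1 + 1) ≠ 0 := by positivity
  field_simp
  ring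

theorem u1_succ (M m : ℕ) : u1 M (m + 1) * (((m : ℚ) + 1) ^ 2 * (3 * m + 1 + 5 * (3 * M + 1))) =
    u1 M m * ((m + (3 * (M : ℚ) + 1) / 3) * (m + (3 * M + 1)) * (3 * m + 1 + (3 * M + 1))) := by
  unfold u1
  rw [show 3 * M + 3 * (m + 1) = 3 * M + 3 * m + 1 + 1 + 1 by ring, fs (3 * M + 3 * m + 1 + 1), fs (3 * M + 3 * m + 1), fs (3 * M + 3 * m),
    show 3 * M + (m + 1) = 3 * M + m + 1 by ring, fs (3 * M + m), show M + (m + 1) = M + m + 1 by ring,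
    fs (M + m), fs m, show 5 * M + 1 + (m + 1) = 5 * M + 1 + m + 1 by ring, fs (5 * M + 1 + m),
    show 3 * M + 1 + (m + 1) = 3 * M + 1 + m + 1 by ring, pow_succ (27 : ℚ) (3 * M + 1 + m)]
  have n0 : ((3 * M)! : ℚ) ≠ 0 := by positivity
  have n1 : ((4 * M + 1)! : ℚ) ≠ 0 := by positivity
  have n2 : ((5 * M + 1 + m)! : ℚ) ≠ 0 := by positivity
  have n3 : ((M + m)! : ℚ) ≠ 0 := by positivity
  have n4 : ((m)! : ℚ) ≠ 0 := by positivity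
  have n5 : (27 : ℚ) ^ (3 * M + 1 + m) ≠ 0 := by positivity
  push_cast
  have q2 : (5 * (M : ℚ) + 1 + m + 1) ≠ 0 := by positivity
  have q3 : ((M : ℚ) + m + 1) ≠ 0 := by positivity
  have q4 : ((m : ℚ) + 1) ≠ 0 := by positivity
  field_simp
  ring

theorem u2_succ (M m : ℕ) : u2 M (m + 1) * (((m : ℚ) + 1) ^ 2 * (3 * m + 2 + 5 * (3 * M + 2))) =
    u2 M m * ((m + (3 * (M : ℚ) + 2) / 3) * (m + (3 * M + 2)) * (3 * m + 2 + (3 * M + 2))) := by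
  unfold u2
  rw [show 3 * M + 1 + 3 * (m + 1) = 3 * M + 1 + 3 * m + 1 + 1 + 1 by ring, fs (3 * M + 1 + 3 * m + 1 + 1), fs (3 * M + 1 + 3 * m + 1),
    fs (3 * M + 1 + 3 * m),
    show 3 * M + 1 + (m + 1) = 3 * M + 1 + m + 1 by ring, fs (3 * M + 1 + m), show M + (m + 1) = M + m + 1 by ring,
    fs (M + m), fs m, show 5 * M + 3 + (m + 1) = 5 * M + 3 + m + 1 by ring, fs (5 * M + 3 + m),
    show 3 * M + 2 + (m + 1) = 3 * M + 2 + m + 1 by ring, pow_succ (27 : ℚ) (3 * M + 2 + m)]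
  have n0 : ((3 * M + 1)! : ℚ) ≠ 0 := by positivity
  have n1 : ((4 * M + 2)! : ℚ) ≠ 0 := by positivity
  have n2 : ((5 * M + 3 + m)! : ℚ) ≠ 0 := by positivity
  have n3 : ((M + m)! : ℚ) ≠ 0 := by positivity
  have n4 : ((m)! : ℚ) ≠ 0 := by positivity
  have n5 : (27 : ℚ) ^ (3 * M + 2 + m) ≠ 0 := by positivity
  push_cast
  have q2 : (5 * (M : ℚ) + 3 + m + 1) ≠ 0 := by positivity
  have q3 : ((M : ℚ) + m + 1) ≠ 0 := by positivity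
  have q4 : ((m : ℚ) + 1) ≠ 0 := by positivity
  field_simp
  ring

theorem u_tt {N : ℕ} (hN0 : 0 < N) {u : ℕ → ℚ} (h0 : u 0 = KK N)
    (hs : ∀ m : ℕ, u (m + 1) * (((m : ℚ) + 1) ^ 2 * (3 * m + ((N % 3 : ℕ) : ℚ) + 5 * N)) =
      u m * ((m + (N : ℚ) / 3) * (m + N) * (3 * m + ((N % 3 : ℕ) : ℚ) + N))) : ∀ m, u (m + 1) = KK N * tt N (m + 1) := by
  intro m
  induction m with
  | zero =>
    have h := hs 0
    rw [tt_one, ← h0]
    have q : (((N % 3 : ℕ) : ℚ) + 5 * N) ≠ 0 := by positivity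
    push_cast at h
    simp only [zero_add, mul_zero] at h ⊢
    field_simp
    linear_combination 3 * h
  | succ m ih =>
    have h := hs (m + 1)
    have h' := tt_succ N (m + 1) hN0 (by omega)
    have q : ((((m + 1 : ℕ) : ℚ) + 1) ^ 2 * (3 * ((m + 1 : ℕ) : ℚ) + ((N % 3 : ℕ) : ℚ) + 5 * N)) ≠ 0 := by positivity
    apply mul_right_cancel₀ q
    rw [h, ih, mul_assoc (KK N), ← h', mul_assoc]

/-- **the exact identity** -/
theorem IA (N : ℕ) (hN : N % 3 ≠ 0) : S35 N = KK N * (1 + ∑ m ∈ range (N / 3), tt N (m + 1)) := by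
  obtain ⟨M, hM⟩ : ∃ M, M = N / 3 := ⟨_, rfl⟩
  have hcase : N = 3 * M + 1 ∨ N = 3 * M + 2 := by omega
  rw [← hM]
  rcases hcase with rfl | rfl
  · rw [(sum_class M).1, sum_range_succ', mul_add, mul_one, add_comm, mul_sum, u1_zero]
    congr 1
    refine sum_congr rfl fun m _ => u_tt (by omega) (u1_zero M) (fun m => ?_) m
    have := u1_succ M m
    rw [show (3 * M + 1) % 3 = 1 by omega]
    push_cast
    exact this
  · rw [(sum_class M).2, sum_range_succ', mul_add, mul_one, add_comm, mul_sum, u2_zero]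
    congr 1
    refine sum_congr rfl fun m _ => u_tt (by omega) (u2_zero M) (fun m => ?_) m
    have := u2_succ M m
    rw [show (3 * M + 2) % 3 = 2 by omega]
    push_cast
    exact this

end Pool.Agent.H547.V1
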