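import Pool.Agent.H547.V1.IA
import Pool.Agent.H547.V1.A3

set_option autoImplicit false
set_option linter.unusedSectionVars false

/-!
# Part (a)
-/

namespace Pool.Agent.H547.V1

open Finset Pool.Agent.R439.PL

variable {p : ℕ} [hp : Fact p.Prime]

theorem A7 (h3 : 3 < p) : I p 2 (H (p - 1) 2 - 2 / 3 * (p : ℚ) * bernoulli (p - 3)) := by
  obtain ⟨y, hy⟩ : ∃ y, p = 2 * y + 1 := by
    have := hp.out.odd_of_ne_two (by omega)
    obtain ⟨n, hn⟩ := this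
    exact ⟨n, hn⟩
  have hB := (I_p (p := p)).mul (bern_h3 hy h3)
  have r1 := (relA2 hy).mono (show 2 ≤ 3 by norm_num)
  have r2 := ((relB2 hy).mono (show 2 ≤ 3 by norm_num)).mulL (nm 4)
  have hp2 : I p 2 ((p : ℚ) ^ 2) := ⟨1, one_mem _, by ring⟩
  have h4 : H y 4 ∈ Zp p := H_mem (by omega) 4
  have h5 := hp2.mulR (mul_mem (m23 (p := p) h3 9 2 0 (q := 9 / 4) (by norm_num)) h4)
  rw [show p - 1 = 2 * y by omega]
  apply (u3 (p := p) h3).cancel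
  have := ((r2.sub r1).sub hB).sub h5
  refine icg this ?_
  ring

theorem KK_one : KK 1 = 8 := by unfold KK; norm_num [Nat.factorial]

theorem KK_pow (hA2 : S_A2) (h3 : 3 < p) : ∀ a : ℕ, EQ p 4 (KK (p ^ (a + 1)) / (p : ℚ) ^ (a + 1))
    (8 * (1 + 2 * (p : ℚ) ^ 2 * H (p - 1) 2 - (p : ℚ) ^ 2 / 3 * H (p / 3) 2 - 16 * (p : ℚ) ^ 3 / 27 * H (p / 3) 3)) := by
  have hm3 : ¬ 3 ∣ p := by
    intro h0
    have := (Nat.prime_dvd_prime_iff_eq Nat.prime_three hp.out).mp h0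
    omega
  have hp0 : (p : ℚ) ≠ 0 := p_ne
  have hR : (1 + 2 * (p : ℚ) ^ 2 * H (p - 1) 2 - (p : ℚ) ^ 2 / 3 * H (p / 3) 2 - 16 * (p : ℚ) ^ 3 / 27 * H (p / 3) 3) ∈ Zp p := by
    have hpm := p_mem (p := p)
    have i3 : (1 / 3 : ℚ) ∈ Zp p := m23 h3 1 0 1 (by norm_num)
    have i27 : (16 / 27 : ℚ) ∈ Zp p := m23 h3 16 0 3 (by norm_num)
    have e : (1 + 2 * (p : ℚ) ^ 2 * H (p - 1) 2 - (p : ℚ) ^ 2 / 3 * H (p / 3) 2 - 16 * (p : ℚ) ^ 3 / 27 * H (p / 3) 3) =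
      1 + 2 * (p : ℚ) ^ 2 * H (p - 1) 2 - (p : ℚ) ^ 2 * (1 / 3) * H (p / 3) 2 - (16 / 27) * (p : ℚ) ^ 3 * H (p / 3) 3 := by ring
    rw [e]
    exact sub_mem (sub_mem (add_mem (one_mem _) (mul_mem (mul_mem (nm 2) (pow_mem hpm 2)) (H_mem (by omega) 2)))
      (mul_mem (mul_mem (pow_mem hpm 2) i3) (H_mem (Nat.div_lt_self (by omega) (by norm_num)) 2)))
      (mul_mem (mul_mem i27 (pow_mem hpm 3)) (H_mem (Nat.div_lt_self (by omega) (by norm_num)) 3))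
  intro a
  induction a with
  | zero =>
    have h := hA2 p 1 hp.out h3 one_pos (by norm_num)
    rw [mul_one, KK_one] at h
    rw [zero_add, pow_one, pow_one, h]
    have e : (p : ℚ) * 8 * (∏ j ∈ (range p).filter (fun j => ¬ p ∣ j), xf p j) / p =
      8 * ∏ j ∈ (range p).filter (fun j => ¬ p ∣ j), xf p j := by field_simp
    rw [e]
    have h1 := ratio_one (p := p) h3
    exact (EQ.refl (nm 8)).mul ⟨by have := add_mem h1.mem hR; rwa [sub_add_cancel] at this, hR, h1⟩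
  | succ a ih =>
    have h := hA2 p (p ^ (a + 1)) hp.out h3 (pow_pos hp.out.pos _) (fun h => hm3 (Nat.prime_three.dvd_of_dvd_pow h))
    rw [← pow_succ'] at h
    have e : KK (p ^ (a + 1 + 1)) / (p : ℚ) ^ (a + 1 + 1) = (KK (p ^ (a + 1)) / (p : ℚ) ^ (a + 1)) *
        ∏ j ∈ (range (p ^ (a + 1 + 1))).filter (fun j => ¬ p ∣ j), xf (p ^ (a + 1 + 1)) j := by
      rw [h, pow_succ (p : ℚ) (a + 1)]
      field_simp
    rw [e]
    have h1 := ratio_ge2 (p := p) (a := a + 1 + 1) (by omega)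
    have h2 : EQ p 4 (∏ j ∈ (range (p ^ (a + 1 + 1))).filter (fun j => ¬ p ∣ j), xf (p ^ (a + 1 + 1)) j) 1 :=
      ⟨by have := add_mem h1.mem (one_mem (Zp p)); rwa [sub_add_cancel] at this, one_mem _, h1⟩
    have h3 := ih.mul h2
    rwa [mul_one] at h3

/-- **part (a)** -/
theorem partA (hA2 : S_A2) (hA4 : S_A4) (hA5 : S_A5) (hA6 : S_A6) (h3 : 3 < p) {a : ℕ} (ha : 1 ≤ a) :
    I p 4 (S35 (p ^ a) / (p : ℚ) ^ a - (8 + 416 / 27 * (p : ℚ) ^ 3 * bernoulli (p - 3))) := by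
  have hm3 : ¬ 3 ∣ p := by
    intro h0
    have := (Nat.prime_dvd_prime_iff_eq Nat.prime_three hp.out).mp h0
    omega
  obtain ⟨b, rfl⟩ : ∃ b, a = b + 1 := ⟨a - 1, by omega⟩
  have hN3 : p ^ (b + 1) % 3 ≠ 0 := fun h => hm3 (Nat.prime_three.dvd_of_dvd_pow (Nat.dvd_of_mod_eq_zero h))
  have hId := IA (p ^ (b + 1)) hN3
  have e0 : S35 (p ^ (b + 1)) / (p : ℚ) ^ (b + 1) = KK (p ^ (b + 1)) / (p : ℚ) ^ (b + 1) *
      (1 + ∑ m ∈ range (p ^ (b + 1) / 3), tt (p ^ (b + 1)) (m + 1)) := by rw [hId]; ring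
  rw [e0]
  have hK := KK_pow hA2 h3 b
  have hp2 : I p 2 ((p : ℚ) ^ 2) := ⟨1, one_mem _, by ring⟩
  have hH2 : H (p - 1) 2 ∈ Zp p := H_mem (by omega) 2
  have hH2' : H (p / 3) 2 ∈ Zp p := H_mem (Nat.div_lt_self (by omega) (by norm_num)) 2
  have hH3' : H (p / 3) 3 ∈ Zp p := H_mem (Nat.div_lt_self (by omega) (by norm_num)) 3
  have i3 : (1 / 3 : ℚ) ∈ Zp p := m23 h3 1 0 1 (by norm_num)
  have i9 : (4 / 9 : ℚ) ∈ Zp p := m23 h3 4 0 2 (by norm_num)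
  have i27 : (16 / 27 : ℚ) ∈ Zp p := m23 h3 16 0 3 (by norm_num)
  have hT1 : I p 4 (∑ m ∈ range (p ^ (b + 1) / 3), tt (p ^ (b + 1)) (m + 1) -
      ((p : ℚ) ^ 2 / 3 * H (p / 3) 2 + 4 * (p : ℚ) ^ 3 / 9 * H (p / 3) 3)) := by
    have := (hA4 p h3 (b + 1) (by omega)).add (hA5 p h3)
    exact icg this (by ring)
  have hV : I p 2 ((p : ℚ) ^ 2 / 3 * H (p / 3) 2 + 4 * (p : ℚ) ^ 3 / 9 * H (p / 3) 3) := by
    have := (hp2.mulR (mul_mem i3 hH2')).add (hp2.mulR (mul_mem (mul_mem i9 p_mem) hH3'))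
    exact icg this (by ring)
  have hT : EQ p 4 (1 + ∑ m ∈ range (p ^ (b + 1) / 3), tt (p ^ (b + 1)) (m + 1))
      (1 + ((p : ℚ) ^ 2 / 3 * H (p / 3) 2 + 4 * (p : ℚ) ^ 3 / 9 * H (p / 3) 3)) := by
    refine (EQ.refl (one_mem _)).add ⟨?_, hV.mem, hT1⟩
    have := add_mem hT1.mem hV.mem
    rwa [sub_add_cancel] at this
  have hmain := (hK.mul hT).2.2
  -- product of small terms
  have hW : I p 2 (2 * (p : ℚ) ^ 2 * H (p - 1) 2 - (p : ℚ) ^ 2 / 3 * H (p / 3) 2 - 16 * (p : ℚ) ^ 3 / 27 * H (p / 3) 3) := by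
    have := ((hp2.mulR (mul_mem (nm 2) hH2)).sub (hp2.mulR (mul_mem i3 hH2'))).sub (hp2.mulR (mul_mem (mul_mem i27 p_mem) hH3'))
    exact icg this (by ring)
  have hWV := (hW.mul hV).mulL (nm 8)
  have h6 := (hp2.mul (hA6 p h3)).mulL (m23 (p := p) h3 32 0 3 (q := 32 / 27) (by norm_num))
  have h7 := (hp2.mul (A7 h3)).mulL (m23 (p := p) h3 208 0 2 (q := 208 / 9) (by norm_num))
  have := ((hmain.add hWV).sub h6).add h7
  refine icg this ?_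
  ring

end Pool.Agent.H547.V1
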