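import Pool.Agent.H547.Bern

set_option autoImplicit false

/-!
# Statements for MP_58376a (frozen statement S17033): sums of `(35k+8) (4k)!/(k!⁴ 81^k)`

Congruence calculus: `Pool.Agent.R439.PL` (library module `Pool/Graph/R_seed8/R439/PLoc.lean`): `Zp p` is the subring of `ℚ` of
rationals with denominator prime to `p`, `I p k x` says `x ∈ p^k Zp`, `U p x` says that `x` is a unit of `Zp`.
`Pool.Agent.H547.Base`: `uNat`, `dmem`, `nm`, `u2`, `u3`, `m23`, `H n r = ∑_{i<n} 1/(i+1)^r`, ... All statements below are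
checked numerically.
-/

namespace Pool.Agent.H547.V1

open Finset Pool.Agent.R439.PL
open scoped Nat

/-- the summand -/
def a35 (k : ℕ) : ℚ := ((35 * (k : ℚ) + 8) / (81 : ℚ) ^ k) * (((4 * k)! : ℚ) / (k ! : ℚ) ^ 4)

/-- the partial sums -/
def S35 (N : ℕ) : ℚ := ∑ k ∈ range N, a35 k

/-- the main factor (natural number divisions `N/3`, `2*N/3`, `4*N/3`, `5*N/3`) -/
def KK (N : ℕ) : ℚ := 9 * N * ((4 * N)! : ℚ) * ((N / 3)! : ℚ) * ((2 * N / 3)! : ℚ) /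
  (27 ^ N * (N ! : ℚ) ^ 2 * ((4 * N / 3)! : ℚ) * ((5 * N / 3)! : ℚ))

/-- the factor of `j` in the ratio, with `x = N/j` -/
def xf (N j : ℕ) : ℚ :=
  if j % 3 = 0 then (1 + (N : ℚ) / j) * (1 + 2 * ((N : ℚ) / j)) / (1 + 3 * ((N : ℚ) / j))
  else if (j + N) % 3 = 0 then (1 + 2 * ((N : ℚ) / j)) * (1 + 3 * ((N : ℚ) / j)) / ((1 + (N : ℚ) / j) * (1 + 4 * ((N : ℚ) / j)))
  else (1 + (N : ℚ) / j) * (1 + 3 * ((N : ℚ) / j)) / (1 + 2 * ((N : ℚ) / j)) ^ 2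

/-- **S_A2** (exact identity, no congruences). For `p > 3` prime, `3 ∤ N'`, `N = p N'`:
`KK N = p · KK N' · ∏_{j < N, p ∤ j} xf N j`.

Proof. For `n : ℕ` let `F n = ∏_{0 < j ≤ n, p ∤ j} j`; then `n! = p^(n/p) (n/p)! F n`. As `(s N / 3)/p = s N' / 3` (nat
division) and `4N' - 2N' + N'/3 + 2N'/3 - 4N'/3 - 5N'/3 = 0` (nat divisions; `3 ∤ N'`), all powers of `p` except the one in
the factor `9 N = 9 p N'` cancel: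
`KK N / (p KK N') = 27^(-(N-N')) F(4N) F(N/3) F(2N/3) / (F(N)² F(4N/3) F(5N/3))`.
For `s = 1,2,4,5` let `P_s = ∏_{0 < j < sN, 3 ∣ j, p ∤ j} j`. Substituting `j = 3i`: `P_s = 3^(c_s) F(sN/3)`,
`c_s = sN/3 - sN'/3` (nat divisions), and `c_1 + c_2 - c_4 - c_5 = -2 (N - N')`. Similarly `3^(N-N') F(N) = P_3`. So
`KK N / (p KK N') = F(4N) P_1 P_2 / (F(N) P_3 P_4 P_5)`. Cutting `(0, sN)` into blocks, `P_s = B_0 ⋯ B_{s-1}` with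
`B_t = ∏_{0 < j < N, p ∤ j, 3 ∣ tN + j} (tN + j)` and `F(4N)/F(N) = ∏_{0<j<N, p ∤ j} (N+j)(2N+j)(3N+j)`, hence the ratio is
`∏_j (N+j)(2N+j)(3N+j) / (B_0 B_1² B_2³ B_3² B_4)`. For `j ≡ 0 (mod 3)` the factor is `(N+j)(2N+j)(3N+j)/(j (3N+j)²)`, for
`j ≡ -N` it is `(N+j)(2N+j)(3N+j)/((N+j)² (4N+j))`, for `j ≡ N` it is `(N+j)(2N+j)(3N+j)/(2N+j)³`. These are `xf N j`.
(Feel free to use another proof.) -/
def S_A2 : Prop := ∀ p N' : ℕ, p.Prime → 3 < p → 0 < N' → ¬ 3 ∣ N' →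
  KK (p * N') = p * KK N' * ∏ j ∈ (range (p * N')).filter (fun j => ¬ p ∣ j), xf (p * N') j

/-- the terms of the second factor -/
def tt (N m : ℕ) : ℚ := (N : ℚ) ^ 2 / (3 * (m : ℚ) ^ 2) *
  (∏ i ∈ range (m - 1), ((1 + (N : ℚ) / (3 * ((i : ℚ) + 1))) * (1 + (N : ℚ) / ((i : ℚ) + 1)))) *
  ∏ j ∈ (range (3 * m)).filter (fun j => j % 3 = N % 3), ((j : ℚ) + N) / ((j : ℚ) + 5 * N)

/-- **S_A4**. For `p > 3` prime and `a ≥ 1`: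
`∑_{m=1}^{p^a/3} tt(p^a, m) ≡ ∑_{m=1}^{p/3} tt(p, m) (mod p⁴)` (nat divisions).

Proof. Let `N = p^a`, `q = p^(a-1)`, `1 ≤ m ≤ N/3` (so `0 < j < 3m ≤ N` for the `j` in the last product, `0 < i+1 < m`; all
these numbers have `p`-adic valuation `≤ a-1`, and each factor `1 + N/(3i')`, `1 + N/i'`, `(j+N)/(j+5N) = (1+N/j)/(1+5N/j)`
is `≡ 1 (mod p)`, and `≡ 1 (mod p²)` if `q ∤ i'` (resp. `q ∤ j`)). If `q ∤ m` then `N²/(3m²)` is divisible by `p⁴`, so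
`tt(N,m) ≡ 0 (mod p⁴)`. If `m = q m'` (`1 ≤ m' ≤ p/3`), then the factors with index not divisible by `q` are `≡ 1 (mod p²)`,
and those with index `q i'` (resp. `q j'`) are exactly the factors of `tt(p, m')` with index `i'` (resp. `j'`; note
`j = q j' ≡ N = q p (mod 3)` iff `j' ≡ p (mod 3)`). As `N²/(3m²) = p²/(3m'²)` has a factor `p²`, `tt(N, q m') ≡ tt(p, m') (mod p⁴)`. -/
def S_A4 : Prop := ∀ (p : ℕ) [Fact p.Prime], 3 < p → ∀ a : ℕ, 1 ≤ a →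
  I p 4 (∑ m ∈ range (p ^ a / 3), tt (p ^ a) (m + 1) - ∑ m ∈ range (p / 3), tt p (m + 1))

/-- **S_A5**. For `p > 3` prime, `M = p/3` (nat division):
`∑_{m=1}^{M} tt(p, m) ≡ (p²/3) H_M^(2) + (4p³/9) H_M^(3) (mod p⁴)`; here `H n r = ∑_{i<n} 1/(i+1)^r` (`Pool.Agent.H547.H`).

Proof. The two products in `tt(p,m)` are `≡ 1 + (4p/3) H_{m-1}` and `≡ 1 - 4p ∑_{0<j<3m, j ≡ p (3)} 1/j (mod p²)`.
Those `j` are `3i+r`, `0 ≤ i < m` (`r = p % 3`), and `p - j = 3(M-i)`, so `∑ 1/j ≡ -(1/3)(H_M - H_{M-m}) (mod p)`.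
Hence `tt(p,m) ≡ (p²/(3m²)) (1 + (4p/3)(H_{m-1} + H_M - H_{M-m})) (mod p⁴)`, and there is the exact identity
`∑_{m=1}^M (H_{m-1} + H_M - H_{M-m})/m² = H_M^(3)`: by induction on `M`, using
`1/(m² (M+1)) - 1/(m² (M+1-m)) = -1/(m (M+1)(M+1-m)) = -(1/m + 1/(M+1-m))/(M+1)²`. -/
def S_A5 : Prop := ∀ (p : ℕ) [Fact p.Prime], 3 < p →
  I p 4 (∑ m ∈ range (p / 3), tt p (m + 1) - ((p : ℚ) ^ 2 / 3 * H (p / 3) 2 + 4 * (p : ℚ) ^ 3 / 9 * H (p / 3) 3))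

/-- **S_IB** (exact identity). For all `n : ℕ` (`N = n+1` below):
`S35 (n+1) = 8·81^(-n) (n+1) (4n+3)!/((2n+3)!(2n+1)!) ∑_{i ≤ n/3} (2i+1) C(2n+3, n-3i) C(2n+1, n-i)`.

Proof. `1/z! = 0` for negative integers `z`; `Pool.Agent.H547.P3.Pull` has `invf : ℤ → ℚ` for this, see `cert2`, `sum_eq` in
`Pool/Agent/H547/P3/Zeil.lean` for this style of proof. With
`f(N,i) = 8·81^(1-N) N (4N-1)! (2i+1) / ((N-1-3i)! (N+2+3i)! (N-1-i)! (N+i)!)`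
`       = 8·81^(1-N) N (4N-1)!/((2N+1)!(2N-1)!) (2i+1) C(2N+1, N-1-3i) C(2N-1, N-1-i)`,
`G(N,i) = 4·81^(-N) (4N-1)! (35N²+8N-27i²) / ((N-3i)! (N+3i)! (N-i)! (N+i)!)`
one has for `N ≥ 1`: `f(N+1,i) - f(N,i) = G(N,i) - G(N,i+1)`, `G(N,0) = a35 N`, hence `S35 N = ∑_{0≤i≤(N-1)/3} f(N,i)` by
induction (`G(N,i) = 0` for `3i > N`). The certificate amounts to the polynomial identity, with `y = i(i+1)`,
`(35N²+8N-27i²)(N+3i+1)(N+3i+2)(N+3i+3)(N+i+1) - (35N²+8N-27(i+1)²)(N-3i)(N-3i-1)(N-3i-2)(N-i)`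
` = 2N(2i+1)(4(N+1)(4N+1)(4N+2)(4N+3) - 81(N²+3N-9y)(N²+N-y))`. -/
def S_IB : Prop := ∀ n : ℕ, S35 (n + 1) = 8 / 81 ^ n * ((n : ℚ) + 1) * ((4 * n + 3)! : ℚ) / (((2 * n + 3)! : ℚ) * ((2 * n + 1)! : ℚ)) *
  ∑ i ∈ range (n / 3 + 1), (2 * (i : ℚ) + 1) * (((2 * n + 3).choose (n - 3 * i) : ℕ) : ℚ) * (((2 * n + 1).choose (n - i) : ℕ) : ℚ)

/-- **S_H3**. For `p > 3` prime: `3^(p-1) ≡ 1 - (2/3) p H_{p/3} (mod p²)` (nat division; `H n r = ∑_{i<n} 1/(i+1)^r`).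

Proof. The numbers `3k`, `0 < k < p`: `3^(p-1) (p-1)! = ∏_k 3k`, and `3k = j`, `p + j` or `2p + j` with `0 < j < p`, `3 ∣ j`,
`3 ∣ p + j`, `3 ∣ 2p + j` respectively (each `j` prime to `p` occurs exactly once), so
`3^(p-1) = ∏_{j ≡ -p (3)} (1 + p/j) ∏_{j ≡ p (3)} (1 + 2p/j)`, `0 < j < p`. Modulo `p²` this is
`1 + p (h(-p) + 2 h(p))`, `h(c) = ∑_{0<j<p, j ≡ c (3)} 1/j`; `j ↦ p - j` gives `h(-p) ≡ 0`, `h(p) ≡ -h(0) = -H_{p/3}/3 (mod p)`. -/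
def S_H3 : Prop := ∀ (p : ℕ) [Fact p.Prime], 3 < p → I p 2 ((3 : ℚ) ^ (p - 1) - (1 - 2 / 3 * (p : ℚ) * H (p / 3) 1))

/-- **S_H6**. For `p > 3` prime: `H_{p/6} ≡ H_{p/2} + H_{p/3} (mod p)` (nat divisions).

Proof. In `H_{p/3}` the even `j = 2k` (`k < p/6`) give `H_{p/6}/2`; for the odd `j < p/3` write `p - j = 2k`, where
`p/3 < k < p/2`: they give `≡ -(1/2)(H_{p/2} - H_{p/3})`. -/
def S_H6 : Prop := ∀ (p : ℕ) [Fact p.Prime], 3 < p → I p 1 (H (p / 6) 1 - (H (p / 2) 1 + H (p / 3) 1))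

/-- **S_A6**. For `p > 3` prime: `p H_{p/3}^(3) ≡ -6 H_{p-1}^(2) (mod p²)` (nat division).

Proof. `(1/9) H_{p-1}^(2) = ∑_{0<k<p} 1/(3k)²`, and `3k = j`, `p + j`, `2p + j` with `0 < j < p`, `3 ∣ j`, `3 ∣ p + j`,
`3 ∣ 2p + j`; each `0 < j < p` occurs exactly once. With `h_r(c) = ∑_{0<j<p, j ≡ c (3)} 1/j^r`, modulo `p²` the sum is
`h_2(0) + (h_2(-p) - 2p h_3(-p)) + (h_2(p) - 4p h_3(p))`; `j ↦ p - j` gives `h_3(-p) ≡ 0`, `h_3(p) ≡ -h_3(0) (mod p)`. So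
`(1/9) H^(2) ≡ H^(2) + 4p h_3(0) (mod p²)`, and `h_3(0) = H_{p/3}^(3)/27`. -/
def S_A6 : Prop := ∀ (p : ℕ) [Fact p.Prime], 3 < p → I p 2 ((p : ℚ) * H (p / 3) 3 + 6 * H (p - 1) 2)

/-- **S_B** (part (b) of the problem, given `S_IB`, `S_H3`, `S_H6`). For `p > 3` prime: `∑_{k ≤ (p-1)/2} a35 k ≡ 8 p 3^(p-1) (mod p³)`.

Proof. (1) `S_IB` with `n = (p-1)/2`.
(2) Let `n = (p-1)/2`, `N = n+1`, so `2N = p+1`. Then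
`S35 N = 8·3^(-2(p-1)) · (2p+1)/(2(p+2)) · C(2p,p) · ∑_{0≤i≤n/3} (2i+1) C(p+2, n-3i) C(p, n-i)`.
`C(2p,p) ≡ 2 (mod p²)`. Let `i0 = n/3 = (p-1)/6` (nat divisions); so `p = 6 i0 + 1` or `p = 6 i0 + 5`.
For `i < i0`: `C(p,n-i) = (p/(n-i)) C(p-1,n-i-1)` and `C(p+2,r) = (p+2)(p+1)p/(r(r-1)(r-2)) C(p-1,r-3)` for `r = n-3i ≥ 3`,
`C(p-1,k) ≡ (-1)^k (mod p)`, so the term is `≡ 2p²(2i+1)/((n-i)r(r-1)(r-2)) ≡ 32 p²/((6i+1)(6i+3)(6i+5)) (mod p³)`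
(as `2n ≡ -1`). With `4(1/(6i+1) - 2/(6i+3) + 1/(6i+5)) = 32/((6i+1)(6i+3)(6i+5))` their sum is `p² W`, where
`W/4 = ∑_{odd k < 6 i0} 1/k - ∑_{odd k < 2 i0} 1/k = (H_{6i0} - H_{3i0}/2) - (H_{2i0} - H_{i0}/2)`.
(3) Term `i = i0`. If `p = 6 i0 + 1` (`n = 3 i0`): it is `(2i0+1) C(p, 2i0)`, `C(p,2i0) = (p/(2i0)) C(p-1,2i0-1)`,
`C(p-1,k) ≡ (-1)^k (1 - p H_k) (mod p²)`. If `p = 6 i0 + 5` (`n = 3 i0 + 2`): it is `(2i0+1) C(p+2,2) C(p,2i0+2)`. With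
`h = H_{p/3}` (nat division): for `p = 6 i0 + 1` (`2i0 = p/3`) it is `≡ 2p (1 - (3/2)p - p h) (mod p³)`, for `p = 6 i0 + 5`
(`2i0+1 = p/3`) it is `≡ 2p (1 - p h) (mod p³)`. Since `(2p+1)/(p+2) ≡ (1/2)(1 + (3/2)p) (mod p²)`, one gets
`S35 N ≡ 8p 3^(-2(p-1)) (1 - p h + pW/2 + c p) (mod p³)`, `c = 0` for `p = 6 i0 + 1`, `c = 3/2` for `p = 6 i0 + 5`.
(4) By `S_H3`: `3^(p-1) ≡ 1 - (2/3) p h (mod p²)`, by `S_H6`: `H_{p/6} ≡ H_{p/2} + h (mod p)`. With `H_{p-1} ≡ 0` one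
gets `W ≡ -2h (mod p)` for `p = 6 i0 + 1` and `W ≡ -2h - 3 (mod p)` for `p = 6 i0 + 5` (there `H_{6i0} ≡ 25/12`,
`H_{3i0} ≡ H_{p/2} + 8/3`, `H_{2i0} ≡ h + 3/2`, `i0 = p/6`). So `1 - ph + pW/2 + cp ≡ 1 - 2ph ≡ 3^(3(p-1)) (mod p²)`. -/
def S_B : Prop := S_IB → S_H3 → S_H6 → ∀ (p : ℕ) [Fact p.Prime], 3 < p → I p 3 (S35 ((p - 1) / 2 + 1) - 8 * (p : ℚ) * 3 ^ (p - 1))

/-- **S_C21**. For `p > 3` prime: `∑_{k<p} (21k+8) C(2k,k)³ ≡ 8p (mod p³)`.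

Proof. Exact identity: `∑_{k<N} (21k+8) C(2k,k)³ = ∑_{0≤i<N} f(N,i)`, `f(N,i) = 4N C(2N,N) C(N+i-1,i)²`, `N ≥ 1`, by
induction on `N`: with `G(N,i) = i²(2i+3N) f(N,i)/N³` one has `f(N+1,i) - f(N,i) = G(N,i+1) - G(N,i)`, and
`f(N+1,N) + G(N,N) - G(N,0) = (21N+8) C(2N,N)³` (use `(N+1) C(2N+2,N+1) = 2(2N+1) C(2N,N)`, `2 C(2N-1,N) = C(2N,N)`).
For `N = p`: `C(2p,p) ≡ 2 (mod p²)`, and `C(p+i-1,i) = (p/i) C(p+i-1,i-1)` for `0 < i < p`, so `∑ ≡ 1 (mod p²)`. -/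
def S_C21 : Prop := ∀ (p : ℕ) [Fact p.Prime], 3 < p →
  I p 3 (∑ k ∈ range p, (21 * (k : ℚ) + 8) * (((2 * k).choose k : ℕ) : ℚ) ^ 3 - 8 * p)

end Pool.Agent.H547.V1
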